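import Pool.Agent.Lib.MP_688fd0_co.SQ7.H41.Lam

/-!
SQ7, row LAM, general form: a word `w` in the letters in which every letter occurs as often as its inverse, whose value lies in
`N` and is central in `ker eps`, has a value of order prime to `|C|`. Forms for lists of pairs and for composite labels.
-/

set_option autoImplicit false

namespace Pool.Agent.Lib.MP_688fd0_co.SQ7.H41

open Pool.Agent.Lib.MP_688fd0_co.OSF Pool.Agent.Lib.MP_688fd0_co.SQ2 Pool.Agent.Lib.MP_688fd0_co.SQ2.H41

/-- A word in which every letter occurs as often as its inverse has the value `1` in an abelian group in which the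
involutions go to `1`. -/
theorem prod_word {G X : Type*} [Group G] [CommGroup X] [DecidableEq G] (w : List G)
    (hw : ∀ x, w.count x = w.count x⁻¹) (n : G →* X) (h2 : ∀ x, x⁻¹ = x → n x = 1) : n w.prod = 1 := by
  rw [map_list_prod, Finset.prod_list_map_count]
  refine Finset.prod_involution (fun d _ => d⁻¹) ?_ ?_ ?_ ?_
  · intro d _
    rw [← hw d, map_inv, inv_pow, mul_inv_cancel]
  · intro d _ hd he
    exact hd (by rw [h2 d he, one_pow])
  · intro d hd
    rw [List.mem_toFinset] at hd ⊢
    rw [← List.count_pos_iff] at hd ⊢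
    rwa [← hw d]
  · intro d _
    exact inv_inv _

/-- **LAM**, general form. -/
theorem lam_word {G : Type*} [Group G] [Finite G] [DecidableEq G] {N C : Subgroup G} {eps : G →* ℤˣ} {k P : ℕ}
    (h : GNE N C eps k P) (w : List G) (hw : ∀ x, w.count x = w.count x⁻¹) (hN : w.prod ∈ N)
    (hc : ∀ x, eps x = 1 → x * w.prod = w.prod * x) : (orderOf w.prod).Coprime (Nat.card C) := by
  set lam := w.prod with hlam
  refine Nat.coprime_of_dvd ?_
  intro q hq hq1 hq2
  have hqN : q ∣ Nat.card N := hq2.trans (Subgroup.card_dvd_of_le h.CN)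
  have hqk : ¬ q ∣ k := fun h1 => hq.one_lt.ne' (Nat.eq_one_of_dvd_coprimes h.cop hqN h1)
  have hk0 : 0 < k := by
    rw [← h.idx]; exact Nat.pos_of_ne_zero N.index_ne_zero_of_finite
  have hq4 : 4 < q := by
    have h1 := (h.big q (Nat.mem_primeFactors.2 ⟨hq, hqN, Nat.card_pos.ne'⟩)).1
    omega
  -- the element of order `q`
  set μ := lam ^ (orderOf lam / q) with hμdef
  have hμ : orderOf μ = q := orderOf_pow_orderOf_div (orderOf_pos lam).ne' hq1
  have hμN : μ ∈ N := N.pow_mem hN _
  have hμC : μ ∈ C := by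
    have : Fact q.Prime := ⟨hq⟩
    obtain ⟨c, hc'⟩ := exists_prime_orderOf_dvd_card' (G := C) q hq2
    have hco : orderOf (c : G) = q := by rw [Subgroup.orderOf_coe, hc']
    have h1 : μ ∈ Subgroup.zpowers (c : G) := by
      refine mem_zpowers_of_pow N h.Nc (h.CN c.2) hμN ?_
      rw [hco, ← hμ, pow_orderOf_eq_one]
    exact (Subgroup.zpowers_le.2 c.2) h1
  have hμc : ∀ x, eps x = 1 → x * μ = μ * x := by
    intro x hx
    have h1 : Commute x lam := hc x hx
    exact h1.pow_right _
  have hμ1 : μ ≠ 1 := by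
    intro h1
    rw [h1, orderOf_one] at hμ
    exact hq.one_lt.ne hμ
  have hsq : ¬ q ^ 2 ∣ Nat.card G := by
    intro h1
    rw [← N.card_mul_index, h.idx] at h1
    have h2 : (q ^ 2).Coprime k := Nat.Coprime.pow_left 2 ((Nat.Prime.coprime_iff_not_dvd hq).2 hqk)
    have h3 : q ^ 2 ∣ Nat.card N := h2.dvd_of_dvd_mul_right h1
    rw [pow_two] at h3
    exact hq.one_lt.ne' (Nat.isUnit_iff.1 (h.Nsq q h3))
  -- an element with `eps = -1`
  obtain ⟨g₀, hd₀⟩ : ∃ g₀, eps g₀ = -1 := by
    by_contra hno
    push Not at hno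
    apply hμ1
    refine h.nact μ hμC fun g => ?_
    have h2 : eps g = 1 := (Int.units_eq_one_or (eps g)).resolve_right (hno g)
    rw [h2, Units.val_one, zpow_one, hμc g h2, mul_inv_cancel_right]
  -- the action on `μ`
  have hact : ∀ g, g * μ * g⁻¹ = μ ∨ eps g = -1 := by
    intro g
    rcases Int.units_eq_one_or (eps g) with h1 | h1
    · left
      rw [hμc g h1, mul_inv_cancel_right]
    · exact Or.inr h1
  have hall : ∀ g, eps g = -1 → g * μ * g⁻¹ = g₀ * μ * g₀⁻¹ := by
    intro g hg
    have h1 : eps (g₀⁻¹ * g) = 1 := by rw [map_mul, map_inv, hd₀, hg]; decide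
    have h2 := hμc _ h1
    have h3 : g = g₀ * (g₀⁻¹ * g) := by rw [mul_inv_cancel_left]
    calc g * μ * g⁻¹ = g₀ * ((g₀⁻¹ * g) * μ) * (g₀ * (g₀⁻¹ * g))⁻¹ := by
          rw [← mul_assoc, ← h3]
      _ = g₀ * (μ * (g₀⁻¹ * g)) * (g₀ * (g₀⁻¹ * g))⁻¹ := by rw [h2]
      _ = g₀ * μ * g₀⁻¹ := by group
  obtain ⟨i, hi⟩ : ∃ i : ℤ, g₀ * μ * g₀⁻¹ = μ ^ i := by
    have h1 : g₀ * μ * g₀⁻¹ ∈ Subgroup.zpowers μ := by
      refine mem_zpowers_of_pow N h.Nc hμN (h.Nn.conj_mem μ hμN g₀) ?_
      rw [conj_pow, pow_orderOf_eq_one, mul_one, mul_inv_cancel]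
    obtain ⟨i, hi⟩ := Subgroup.mem_zpowers_iff.1 h1
    exact ⟨i, hi.symm⟩
  have hii : μ ^ (i * i) = μ := by
    have h1 : g₀ * (g₀ * μ * g₀⁻¹) * g₀⁻¹ = μ := by
      have h2 : eps (g₀ * g₀) = 1 := by rw [map_mul, hd₀]; decide
      have h3 := hμc _ h2
      have h4 : g₀ * (g₀ * μ * g₀⁻¹) * g₀⁻¹ = (g₀ * g₀ * μ) * (g₀ * g₀)⁻¹ := by group
      rw [h4, h3, mul_inv_cancel_right]
    rw [hi, ← conj_zpow, hi, ← zpow_mul] at h1
    exact h1
  have hdvd : (q : ℤ) ∣ (i - 1) * (i + 1) := by
    have h1 : μ ^ (i * i - 1) = 1 := by rw [zpow_sub_one, hii, mul_inv_cancel]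
    have h2 := orderOf_dvd_iff_zpow_eq_one.2 h1
    rw [hμ] at h2
    have h3 : (i - 1) * (i + 1) = i * i - 1 := by ring
    rw [h3]
    exact h2
  rcases (Nat.prime_iff_prime_int.1 hq).dvd_or_dvd hdvd with h1 | h1
  · -- `μ` is central
    have h2 : g₀ * μ * g₀⁻¹ = μ := by
      rw [hi]
      have h3 : μ ^ (i - 1) = 1 := by
        apply orderOf_dvd_iff_zpow_eq_one.1
        rw [hμ]
        exact h1
      have h4 : μ ^ i = μ ^ (i - 1) * μ := by rw [← zpow_add_one]; congr 1; ring
      rw [h4, h3, one_mul]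
    have hcen : ∀ g, μ * g = g * μ := by
      intro g
      rcases hact g with h3 | h3
      · exact (mul_inv_eq_iff_eq_mul.1 h3).symm
      · have h4 := hall g h3
        rw [h2] at h4
        exact (mul_inv_eq_iff_eq_mul.1 h4).symm
    obtain ⟨K, hK1, hK2, hK3⟩ := exists_compl hq hμ hcen hsq
    have hKn : K.Normal := by
      refine ⟨fun x hx g => ?_⟩
      have h4 : g * x * g⁻¹ = g * x * g⁻¹ * x⁻¹ * x := by rw [inv_mul_cancel_right]
      rw [h4]
      exact K.mul_mem (hK3 g x) hx
    let _ : CommGroup (G ⧸ K) :=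
      { (inferInstance : Group (G ⧸ K)) with
        mul_comm := by
          intro x y
          obtain ⟨x, rfl⟩ := QuotientGroup.mk'_surjective K x
          obtain ⟨y, rfl⟩ := QuotientGroup.mk'_surjective K y
          have h4 := (QuotientGroup.eq_one_iff (N := K) (x * y * x⁻¹ * y⁻¹)).2 (hK3 x y)
          have h5 : QuotientGroup.mk' K x * QuotientGroup.mk' K y * (QuotientGroup.mk' K x)⁻¹ *
              (QuotientGroup.mk' K y)⁻¹ = 1 := h4
          exact mul_inv_eq_iff_eq_mul.1 (mul_inv_eq_one.1 h5) }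
    set n : G →* G ⧸ K := QuotientGroup.mk' K with hn
    have hn1 : ∀ x, x⁻¹ = x → n x = 1 := by
      intro x hx
      have h4 : x ∈ K := by
        apply hK2
        have h5 : x ^ 2 = 1 := by
          rw [pow_two]
          nth_rewrite 1 [← hx]
          rw [inv_mul_cancel]
        have h6 : orderOf x ∣ 2 := orderOf_dvd_of_pow_eq_one h5
        refine Nat.Coprime.coprime_dvd_left h6 ?_
        rw [Nat.coprime_comm]
        refine (Nat.Prime.coprime_iff_not_dvd hq).2 fun h7 => ?_
        have := Nat.le_of_dvd (by norm_num) h7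
        omega
      exact (QuotientGroup.eq_one_iff x).2 h4
    have hlam1 : n lam = 1 := prod_word w hw n hn1
    have h4 : lam ∈ K := (QuotientGroup.eq_one_iff lam).1 hlam1
    have h5 : orderOf lam ∣ Nat.card K := by
      rw [← Subgroup.orderOf_mk lam h4]
      exact orderOf_dvd_natCard _
    have h6 : q ∣ 1 := by
      rw [← hK1]
      exact Nat.dvd_gcd (hq1.trans h5) dvd_rfl
    exact hq.one_lt.ne' (Nat.dvd_one.1 h6)
  · -- `μ` has the action `eps`
    apply hμ1
    refine h.nact μ hμC fun g => ?_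
    rcases Int.units_eq_one_or (eps g) with h2 | h2
    · rw [h2, Units.val_one, zpow_one, hμc g h2, mul_inv_cancel_right]
    · rw [hall g h2, h2, hi]
      have h3 : μ ^ (i + 1) = 1 := by
        apply orderOf_dvd_iff_zpow_eq_one.1
        rw [hμ]
        exact h1
      have h4 : μ ^ i = μ ^ (i + 1) * μ⁻¹ := by rw [zpow_add_one, mul_inv_cancel_right]
      rw [h4, h3, one_mul, Units.val_neg, Units.val_one, zpow_neg_one]


/-- The product of a list of pairs `d c⁻¹` as a word. -/
theorem prod_flat {G : Type*} [Group G] (l : List (G × G)) :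
    (l.flatMap fun s => [s.1, s.2⁻¹]).prod = (l.map fun s => s.1 * s.2⁻¹).prod := by
  induction l with
  | nil => rfl
  | cons s l ih => rw [List.flatMap_cons, List.prod_append, ih, List.map_cons, List.prod_cons]; simp

theorem count_flat {G : Type*} [Group G] [DecidableEq G] (l : List (G × G)) (x : G) :
    (l.flatMap fun s => [s.1, s.2⁻¹]).count x = (l.map Prod.fst).count x + (l.map Prod.snd).count x⁻¹ := by
  induction l with
  | nil => rfl
  | cons s l ih =>
    rw [List.flatMap_cons, List.count_append, ih, List.map_cons, List.map_cons, List.count_cons, List.count_cons,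
      List.count_cons, List.count_cons, List.count_nil]
    have h1 : (s.2⁻¹ == x) = (s.2 == x⁻¹) := by
      rw [beq_eq_beq]
      exact ⟨fun h => by rw [← h, inv_inv], fun h => by rw [h, inv_inv]⟩
    rw [h1]
    omega

/-- **LAM** for a list of pairs `d c⁻¹`: every letter occurs in the first places as often as its inverse, and the same for
the second places. -/
theorem lam_pairs {G : Type*} [Group G] [Finite G] [DecidableEq G] {N C : Subgroup G} {eps : G →* ℤˣ} {k P : ℕ}
    (h : GNE N C eps k P) (l : List (G × G)) (h1 : ∀ x, (l.map Prod.fst).count x = (l.map Prod.fst).count x⁻¹)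
    (h2 : ∀ x, (l.map Prod.snd).count x = (l.map Prod.snd).count x⁻¹)
    (hN : (l.map fun s => s.1 * s.2⁻¹).prod ∈ N)
    (hc : ∀ x, eps x = 1 → x * (l.map fun s => s.1 * s.2⁻¹).prod = (l.map fun s => s.1 * s.2⁻¹).prod * x) :
    (orderOf (l.map fun s => s.1 * s.2⁻¹).prod).Coprime (Nat.card C) := by
  rw [← prod_flat] at hN hc ⊢
  refine lam_word h _ (fun x => ?_) hN hc
  rw [count_flat, count_flat, h1 x, h2 x⁻¹]

/-- The word of a list of composite labels. -/
theorem prod_comp {G Λ : Type*} [Group G] (wd : Λ → List G) (B : List Λ) :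
    (B.flatMap wd).prod = (B.map fun s => (wd s).prod).prod := by
  induction B with
  | nil => rfl
  | cons s l ih => rw [List.flatMap_cons, List.prod_append, ih, List.map_cons, List.prod_cons]

theorem count_comp {G Λ : Type*} [DecidableEq G] [Fintype Λ] [DecidableEq Λ] (wd : Λ → List G) (B : List Λ) (x : G) :
    (B.flatMap wd).count x = ∑ s, B.count s * (wd s).count x := by
  induction B with
  | nil => simp
  | cons s l ih =>
    rw [List.flatMap_cons, List.count_append, ih]
    have h1 : ∀ s', (s :: l).count s' * (wd s').count x =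
        (if s' = s then (wd s').count x else 0) + l.count s' * (wd s').count x := by
      intro s'
      rw [List.count_cons]
      by_cases h : s' = s
      · subst h; simp; ring
      · have : (s == s') = false := by simpa using fun h' => h (Eq.symm h')
        rw [this, if_neg h]; simp
    rw [Finset.sum_congr rfl fun s' _ => h1 s', Finset.sum_add_distrib]
    simp

/-- **LAM** for composite labels: the label `s` has the word `wd s`; all labels occur equally often in `B`; in all the words
together every letter occurs as often as its inverse. -/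
theorem lam_comp {G Λ : Type*} [Group G] [Finite G] [DecidableEq G] [Fintype Λ] [DecidableEq Λ] {N C : Subgroup G}
    {eps : G →* ℤˣ} {k P : ℕ} (h : GNE N C eps k P) (wd : Λ → List G)
    (hs : ∀ x, ∑ s, (wd s).count x = ∑ s, (wd s).count x⁻¹) (B : List Λ) (M : ℕ) (hB : ∀ s, B.count s = M)
    (hN : (B.map fun s => (wd s).prod).prod ∈ N)
    (hc : ∀ x, eps x = 1 → x * (B.map fun s => (wd s).prod).prod = (B.map fun s => (wd s).prod).prod * x) :
    (orderOf (B.map fun s => (wd s).prod).prod).Coprime (Nat.card C) := by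
  rw [← prod_comp] at hN hc ⊢
  refine lam_word h _ (fun x => ?_) hN hc
  rw [count_comp, count_comp]
  simp only [hB]
  rw [← Finset.mul_sum, ← Finset.mul_sum, hs x]

/-- A permutation of the labels which replaces every letter by its inverse. -/
theorem sum_sym {G Λ : Type*} [Group G] [DecidableEq G] [Fintype Λ] (wd : Λ → List G) (σ : Equiv.Perm Λ)
    (hσ : ∀ s, (wd (σ s)).Perm ((wd s).map (·⁻¹))) (x : G) : ∑ s, (wd s).count x = ∑ s, (wd s).count x⁻¹ := by
  rw [← Equiv.sum_comp σ]
  refine Finset.sum_congr rfl fun s _ => ?_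
  rw [(hσ s).count_eq]
  have h1 := List.count_map_of_injective (wd s) (·⁻¹) inv_injective x⁻¹
  rw [inv_inv] at h1
  exact h1

/-- **LAM** for composite labels with a symmetry. -/
theorem lam_comp' {G Λ : Type*} [Group G] [Finite G] [Fintype Λ] [DecidableEq Λ] {N C : Subgroup G}
    {eps : G →* ℤˣ} {k P : ℕ} (h : GNE N C eps k P) (wd : Λ → List G) (σ : Equiv.Perm Λ)
    (hσ : ∀ s, (wd (σ s)).Perm ((wd s).map (·⁻¹))) (B : List Λ) (M : ℕ) (hB : ∀ s, B.count s = M)
    (hN : (B.map fun s => (wd s).prod).prod ∈ N)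
    (hc : ∀ x, eps x = 1 → x * (B.map fun s => (wd s).prod).prod = (B.map fun s => (wd s).prod).prod * x) :
    (orderOf (B.map fun s => (wd s).prod).prod).Coprime (Nat.card C) := by
  classical
  exact lam_comp h wd (sum_sym wd σ hσ) B M hB hN hc

end Pool.Agent.Lib.MP_688fd0_co.SQ7.H41
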