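import Pool.Agent.Lib.MP_688fd0_co.SQ7.H41.Queue
import Pool.Agent.Lib.MP_688fd0_co.SQ7.H90.Asm

/-!
SQ7, row ARCS (helper41), the case of fixed rails (`N_V ≠ 1`): the hypotheses of `PD.asm`.

The visits are numbered by the level (`k < n`) and by the time (`t ≤ m`, `n = m + 1`); the visit of the time `m` is the virtual
one. Rails and columns of passive families are different fixed columns; passive families are queues (`Queue.lean`).
-/

set_option autoImplicit false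

namespace Pool.Agent.Lib.MP_688fd0_co.SQ7.H41

open Equiv Relation Function
open Pool.Agent.Lib.MP_688fd0_co.SQ7.H90

variable {Tok ι F : Type}

/-- The columns. -/
structure ArC (S : PD Tok ι) (fam : ℕ → Option (F × ℕ)) (cs : F → ℕ → List Tok) (m : ℕ) (tm ix : ℕ → ℕ) : Prop where
  l_pos : 0 < S.l
  nm : S.n = m + 1
  m_pos : 0 < m
  tm_le : ∀ k < S.n, tm k ≤ m
  tm_ix : ∀ t ≤ m, tm (ix t) = t
  ix_tm : ∀ k < S.n, ix (tm k) = k
  ix_lt : ∀ t ≤ m, ix t < S.n
  e_inj : ∀ i < S.n, ∀ j < S.n, S.e i = S.e j → i = j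
  O_e : ∀ t, t + 1 < m → S.O (S.e (ix t)) = S.e (ix (t + 1))
  O_last : ∀ t, t + 1 = m → S.O (S.e (ix t)) = S.e (ix 0)
  O_virt : S.O (S.e (ix m)) = S.e (ix m)
  fam_act : ∀ k < S.n, (fam k = none ↔ S.act k)
  lap : ∀ k < S.n, ∀ f w, fam k = some (f, w) → w < S.l
  run : ∀ k < S.n, ∀ f w, fam k = some (f, w) → (cs f w ++ [S.e k]).map (S.π k) = S.e k :: cs f w
  off : ∀ k < S.n, ∀ f w, fam k = some (f, w) → ∀ x, x ∉ cs f w → x ≠ S.e k → S.π k x = x
  e_cs : ∀ k < S.n, ∀ f, ∀ w < S.l, S.e k ∉ cs f w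
  cs_cs : ∀ f f', ∀ w < S.l, ∀ w' < S.l, ∀ x, x ∈ cs f w → x ∈ cs f' w' → f = f' ∧ w = w'
  cs_up : ∀ f w, w + 1 < S.l → (cs f w).map S.O = cs f (w + 1)
  w_lt : ∀ k < S.n, S.act k → S.w k < S.l
  y_eq : ∀ k < S.n, S.act k → ∀ b, S.y k b = S.ρ (S.L k) (S.w k) b
  ρ_inj : ∀ r j b r' j' b', j < S.l → j' < S.l → S.ρ r j b = S.ρ r' j' b' → r = r' ∧ j = j' ∧ b = b'
  e_ρ : ∀ k < S.n, ∀ r j b, j < S.l → S.e k ≠ S.ρ r j b
  ρ_cs : ∀ r j b, j < S.l → ∀ f, ∀ w < S.l, S.ρ r j b ∉ cs f w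
  ρ_up : ∀ r j b, j < S.l → S.O (S.ρ r j b) = S.ρ r (j + 1) b
  cov : ∀ x, ∃ i : ℕ, (∃ r j b, j < S.l ∧ (S.O ^ i) x = S.ρ r j b) ∨ (∃ k < S.n, (S.O ^ i) x = S.e k) ∨
    ∃ f, ∃ w < S.l, (S.O ^ i) x ∈ cs f w

/-- The trajectory. -/
structure ArT (S : PD Tok ι) (fam : ℕ → Option (F × ℕ)) (cs : F → ℕ → List Tok) (m : ℕ) (ix : ℕ → ℕ) : Prop where
  act0 : S.act (ix 0)
  actm : S.act (ix m)
  iso : ∀ t < m, ¬ S.act (ix t) → 0 < t ∧ S.act (ix (t - 1)) ∧ S.act (ix (t + 1))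
  dir : ∀ t, t + 1 < m → S.act (ix t) → S.act (ix (t + 1)) → ∃ s : Fin 3 → ℕ, Injective s ∧ ∀ i, s i + 1 < m ∧
    S.act (ix (s i)) ∧ S.act (ix (s i + 1)) ∧ S.L (ix (s i)) = S.L (ix t) ∧ S.L (ix (s i + 1)) = S.L (ix (t + 1))
  fam_prev : ∀ t < m, ∀ t' < m, ∀ f w w', fam (ix t) = some (f, w) → fam (ix t') = some (f, w') →
    S.L (ix (t - 1)) = S.L (ix (t' - 1))
  fam_next : ∀ t, t + 1 < m → ∀ t', t' + 1 < m → ∀ f w w', fam (ix t) = some (f, w) → fam (ix t') = some (f, w') →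
    S.L (ix (t + 1)) = S.L (ix (t' + 1))
  big : ∀ f, (cs f 0).length + 4 ≤ (Que.VS fam S.n f S.l).length
  virt : ∃ t < m, S.act (ix t) ∧ S.L (ix t) = S.L (ix m)
  all : ∀ r, ∃ t ≤ m, S.act (ix t) ∧ S.L (ix t) = r

section

variable {S : PD Tok ι} {fam : ℕ → Option (F × ℕ)} {cs : F → ℕ → List Tok} {m : ℕ} {tm ix : ℕ → ℕ}

theorem Pk_eq (k : ℕ) : Pk S.pe k = S.PP k := by
  induction k with
  | zero => rfl
  | succ k ih =>
    rw [PD.PP_succ, ← ih]
    rfl

namespace ArC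

variable (A : ArC S fam cs m tm ix)

include A

/-- The next visit. -/
theorem que : Que S.n S.l S.pe S.e S.O fam cs
    (fun k => ix (if tm k = m then m else if tm k + 1 = m then 0 else tm k + 1)) := by
  classical
  refine ⟨A.e_inj, A.lap, ?_, ?_, ?_, A.e_cs, A.cs_cs, A.cs_up, ?_⟩
  · intro k hk h
    unfold PD.pe
    rw [if_pos ((A.fam_act k hk).1 h)]
  · intro k hk f w h
    unfold PD.pe
    rw [if_neg (fun ha => by rw [(A.fam_act k hk).2 ha] at h; cases h)]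
    exact A.run k hk f w h
  · intro k hk f w h
    unfold PD.pe
    rw [if_neg (fun ha => by rw [(A.fam_act k hk).2 ha] at h; cases h)]
    exact A.off k hk f w h
  · intro k hk
    have h1 := A.tm_le k hk
    have h2 := A.ix_tm k hk
    by_cases h3 : tm k = m
    · simp only [h3, if_true]
      refine ⟨A.ix_lt m le_rfl, ?_⟩
      rw [← h2, h3]
      exact A.O_virt
    · by_cases h4 : tm k + 1 = m
      · simp only [h3, h4, if_false, if_true]
        refine ⟨A.ix_lt 0 (Nat.zero_le _), ?_⟩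
        have := A.O_last (tm k) h4
        rwa [h2] at this
      · simp only [h3, h4, if_false]
        refine ⟨A.ix_lt _ (by omega), ?_⟩
        have := A.O_e (tm k) (by omega)
        rwa [h2] at this

theorem P_ρ {k : ℕ} (hk : k ≤ S.n) {r : ι} {j : ℕ} {b : Bool} (hj : j < S.l) : S.PP k (S.ρ r j b) = S.ρ r j b := by
  rw [← Pk_eq]
  refine A.que.P_off hk (fun f w hw => A.ρ_cs r j b hj f w hw) fun i hi h => ?_
  exact absurd h.symm (A.e_ρ i hi r j b hj)

theorem P_e {k i : ℕ} (hk : k ≤ S.n) (hi : i < S.n) (ha : S.act i) : S.PP k (S.e i) = S.e i := by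
  rw [← Pk_eq]
  exact A.que.P_act hk hi ((A.fam_act i hi).2 ha)

/-- (H1), (H2). -/
theorem ok : PD.Ok S := by
  refine ⟨A.l_pos, A.w_lt, fun k hk _ k' hk' _ h => A.e_inj k hk k' hk' h, A.ρ_inj, fun k hk _ r j b hj => A.e_ρ k hk r j b hj,
    fun k hk ha => A.P_e hk.le hk ha, fun k hk ha b => ?_, fun r j b hj => ?_⟩
  · rw [A.P_ρ hk.le (A.w_lt k hk ha), A.y_eq k hk ha]
  · rw [A.P_ρ le_rfl hj, A.ρ_up r j b hj]

theorem cs_Av : ∀ f, ∀ v < S.l, ∀ x ∈ cs f v, x ∉ S.Av := by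
  rintro f v hv x hx (⟨k, hk, -, rfl⟩ | ⟨r, j, b, hj, rfl⟩)
  · exact A.e_cs k hk f v hv hx
  · exact A.ρ_cs r j b hj f v hv hx

theorem e_Av {k : ℕ} (hk : k < S.n) (ha : ¬ S.act k) : S.e k ∉ S.Av := by
  rintro (⟨k', hk', ha', h⟩ | ⟨r, j, b, hj, h⟩)
  · rw [A.e_inj k' hk' k hk h] at ha'
    exact ha ha'
  · exact A.e_ρ k hk r j b hj h.symm

theorem ix_inj {t t' : ℕ} (ht : t ≤ m) (ht' : t' ≤ m) (h : ix t = ix t') : t = t' := by
  rw [← A.tm_ix t ht, ← A.tm_ix t' ht', h]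

/-- A direct arc between consecutive active visits. -/
theorem arc_dir {t : ℕ} (ht : t + 1 < m) (ha : S.act (ix t)) : S.Arc (ix t) (ix (t + 1)) := by
  refine ⟨0, ?_, fun i' hi' => by omega⟩
  rw [zero_add, pow_one]
  show S.O (S.PP S.n (S.e (ix t))) = _
  rw [A.P_e le_rfl (A.ix_lt t (by omega)) ha, A.O_e t ht]

/-- The arcs through a family. -/
theorem arc_fam (T : ArT S fam cs m ix) (f : F) {i : ℕ} (hi : i + (cs f 0).length < (Que.VS fam S.n f S.l).length)
    (hlast : tm ((Que.VS fam S.n f S.l)[i + (cs f 0).length]) + 1 < m) :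
    S.Arc (ix (tm ((Que.VS fam S.n f S.l)[i]'(by omega)) - 1))
      (ix (tm ((Que.VS fam S.n f S.l)[i + (cs f 0).length]) + 1)) := by
  obtain ⟨j, h1, h2⟩ := A.que.flow_get f A.l_pos (Act := S.Av) (A.cs_Av f) hi
  rw [Pk_eq] at h1 h2
  obtain ⟨hk, w, hw, hf⟩ := Que.mem_VS.1 (List.getElem_mem (l := Que.VS fam S.n f S.l) (n := i) (by omega))
  obtain ⟨hz, -⟩ := Que.mem_VS.1 (List.getElem_mem (l := Que.VS fam S.n f S.l) hi)
  generalize (Que.VS fam S.n f S.l)[i]'(by omega) = k at h1 h2 hk hf ⊢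
  generalize (Que.VS fam S.n f S.l)[i + (cs f 0).length] = z at h1 h2 hz hlast ⊢
  have hka : ¬ S.act k := fun h => by rw [(A.fam_act k hk).2 h] at hf; cases hf
  have hkm : tm k < m := by
    rcases lt_or_eq_of_le (A.tm_le k hk) with h | h
    · exact h
    · exact absurd T.actm (by rw [← h, A.ix_tm k hk]; exact hka)
  obtain ⟨h3, h4, -⟩ := T.iso (tm k) hkm (by rw [A.ix_tm k hk]; exact hka)
  have h5 : S.Θ (S.e (ix (tm k - 1))) = S.e k := by
    show S.O (S.PP S.n (S.e (ix (tm k - 1)))) = _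
    have h6 := A.O_e (tm k - 1) (by omega)
    rw [show tm k - 1 + 1 = tm k by omega, A.ix_tm k hk] at h6
    rw [A.P_e le_rfl (A.ix_lt _ (by omega)) h4, h6]
  have h7 : S.O (S.e z) = S.e (ix (tm z + 1)) := by
    have h6 := A.O_e (tm z) hlast
    rwa [A.ix_tm z hz] at h6
  refine ⟨j + 1, ?_, fun i' hi' => ?_⟩
  · rw [pow_succ, Perm.mul_apply, h5, pow_succ', Perm.mul_apply, ← h7, ← h2]
    rfl
  · rw [pow_succ, Perm.mul_apply, h5]
    rcases Nat.eq_zero_or_pos i' with rfl | h8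
    · exact A.e_Av hk hka
    · exact h1 i' h8 (by omega)

/-- (H3). -/
theorem hcov [Finite Tok] (T : ArT S fam cs m ix) (x : Tok) : ∃ i : ℕ, (S.Θ ^ i) x ∈ S.Av := by
  have h := A.que.cover A.l_pos (Act := S.Av) (fun k hk hf => Or.inl ⟨k, hk, (A.fam_act k hk).1 hf, rfl⟩) A.cs_Av ?_
    (fun f => by have := T.big f; omega) ?_ x
  · rw [Pk_eq] at h
    exact h
  · intro k hk hf
    have hka : ¬ S.act k := fun h => hf ((A.fam_act k hk).2 h)
    have hkm : tm k < m := by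
      rcases lt_or_eq_of_le (A.tm_le k hk) with h | h
      · exact h
      · exact absurd T.actm (by rw [← h, A.ix_tm k hk]; exact hka)
    obtain ⟨h3, h4, -⟩ := T.iso (tm k) hkm (by rw [A.ix_tm k hk]; exact hka)
    have h5 := A.ix_lt (tm k - 1) (by omega)
    refine ⟨ix (tm k - 1), h5, (A.fam_act _ h5).2 h4, ?_⟩
    have h6 := A.O_e (tm k - 1) (by omega)
    rwa [show tm k - 1 + 1 = tm k by omega, A.ix_tm k hk] at h6
  · intro x
    obtain ⟨i, h | h | h⟩ := A.cov x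
    · obtain ⟨r, j, b, hj, h⟩ := h
      exact ⟨i, Or.inl (Or.inr ⟨r, j, b, hj, h.symm⟩)⟩
    · exact ⟨i, Or.inr (Or.inl h)⟩
    · exact ⟨i, Or.inr (Or.inr h)⟩

/-- Three arcs from the direct steps. -/
theorem three_dir (T : ArT S fam cs m ix) {t : ℕ} (ht : t + 1 < m) (ha : S.act (ix t)) (ha' : S.act (ix (t + 1))) :
    S.Three (ix 0) (ix m) (S.L (ix t)) (S.L (ix (t + 1))) := by
  obtain ⟨s, hs, h⟩ := T.dir t ht ha ha'
  refine ⟨fun i => ix (s i), fun i => ix (s i + 1), fun i j hij => ?_, fun i => ?_⟩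
  · have h1 := (h i).1
    have h2 := (h j).1
    exact hs (A.ix_inj (by omega) (by omega) hij)
  · obtain ⟨h1, h2, h3, h4, h5⟩ := h i
    refine ⟨A.ix_lt _ (by omega), h2, h4, A.ix_lt _ (by omega), h3, h5, A.arc_dir h1 h2, fun h6 => ?_, fun h6 => ?_⟩
    · have := A.ix_inj (by omega) (by omega) h6
      omega
    · have := A.ix_inj (by omega) (by omega) h6
      omega

/-- Three arcs from a family. -/
theorem three_fam (T : ArT S fam cs m ix) {t : ℕ} (ht : t + 1 < m) (ha : ¬ S.act (ix t)) :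
    S.Three (ix 0) (ix m) (S.L (ix (t - 1))) (S.L (ix (t + 1))) := by
  obtain ⟨⟨f, w⟩, hf⟩ : ∃ fw, fam (ix t) = some fw := by
    rcases h : fam (ix t) with _ | fw
    · exact absurd ((A.fam_act _ (A.ix_lt t (by omega))).1 h) ha
    · exact ⟨fw, rfl⟩
  have hbig := T.big f
  set V := Que.VS fam S.n f S.l with hV
  set q := (cs f 0).length with hq
  have hnd : V.Nodup := Que.VS_nodup f S.l
  have hmem : ∀ i (hi : i < V.length), V[i] < S.n ∧ ∃ v, fam V[i] = some (f, v) := fun i hi => by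
    obtain ⟨h1, v, -, h2⟩ := Que.mem_VS.1 (List.getElem_mem hi)
    exact ⟨h1, v, h2⟩
  have hpas : ∀ i (hi : i < V.length), ¬ S.act V[i] := fun i hi h => by
    obtain ⟨h1, v, h2⟩ := hmem i hi
    rw [(A.fam_act _ h1).2 h] at h2
    cases h2
  have htm : ∀ i (hi : i < V.length), tm V[i] < m := fun i hi => by
    rcases lt_or_eq_of_le (A.tm_le _ (hmem i hi).1) with h | h
    · exact h
    · exact absurd T.actm (by rw [← h, A.ix_tm _ (hmem i hi).1]; exact hpas i hi)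
  have htinj : ∀ i (hi : i < V.length) j (hj : j < V.length), tm V[i] = tm V[j] → i = j := by
    intro i hi j hj h
    have h1 : V[i] = V[j] := by rw [← A.ix_tm _ (hmem i hi).1, h, A.ix_tm _ (hmem j hj).1]
    exact (List.Nodup.getElem_inj_iff hnd).1 h1
  -- three of four
  obtain ⟨g, hg, hgl⟩ : ∃ g : Fin 3 → Fin 4, Injective g ∧
      ∀ i, tm (V[(g i : ℕ) + q]'(by have := (g i).2; omega)) + 1 < m := by
    by_cases hex : ∃ j : Fin 4, tm (V[(j : ℕ) + q]'(by have := j.2; omega)) + 1 = m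
    · obtain ⟨j, hj⟩ := hex
      refine ⟨j.succAbove, Fin.succAbove_right_injective, fun i => ?_⟩
      have h1 := htm ((j.succAbove i : ℕ) + q) (by have := (j.succAbove i).2; omega)
      rcases Nat.lt_or_ge (tm (V[(j.succAbove i : ℕ) + q]'(by have := (j.succAbove i).2; omega)) + 1) m with h2 | h2
      · exact h2
      · exfalso
        have h3 : tm (V[(j.succAbove i : ℕ) + q]'(by have := (j.succAbove i).2; omega)) =
            tm (V[(j : ℕ) + q]'(by have := j.2; omega)) := by omega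
        have h4 := htinj _ _ _ _ h3
        exact Fin.succAbove_ne j i (Fin.ext (by omega))
    · push Not at hex
      refine ⟨Fin.castSucc, Fin.castSucc_injective 3, fun i => ?_⟩
      have h1 := htm ((Fin.castSucc i : Fin 4) + q : ℕ) (by have := (Fin.castSucc i).2; omega)
      have h2 := hex (Fin.castSucc i)
      omega
  have hk : ∀ i : Fin 3, (g i : ℕ) < V.length := fun i => by have := (g i).2; omega
  have hz : ∀ i : Fin 3, (g i : ℕ) + q < V.length := fun i => by have := (g i).2; omega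
  refine ⟨fun i => ix (tm (V[(g i : ℕ)]'(hk i)) - 1), fun i => ix (tm (V[(g i : ℕ) + q]'(hz i)) + 1), ?_, fun i => ?_⟩
  · intro i j hij
    have h1 := htm _ (hk i)
    have h2 := htm _ (hk j)
    have h3 := A.ix_inj (by omega) (by omega) hij
    have h4 := (T.iso _ h1 (by rw [A.ix_tm _ (hmem _ (hk i)).1]; exact hpas _ (hk i))).1
    have h5 := (T.iso _ h2 (by rw [A.ix_tm _ (hmem _ (hk j)).1]; exact hpas _ (hk j))).1
    exact hg (Fin.ext (htinj _ (hk i) _ (hk j) (by omega)))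
  · have h1 := htm _ (hk i)
    have h2 := hgl i
    obtain ⟨v, h3⟩ := (hmem _ (hk i)).2
    obtain ⟨v', h4⟩ := (hmem _ (hz i)).2
    obtain ⟨h5, h6, -⟩ := T.iso _ h1 (by rw [A.ix_tm _ (hmem _ (hk i)).1]; exact hpas _ (hk i))
    obtain ⟨-, -, h7⟩ := T.iso _ (htm _ (hz i)) (by rw [A.ix_tm _ (hmem _ (hz i)).1]; exact hpas _ (hz i))
    refine ⟨A.ix_lt _ (by omega), h6, ?_, A.ix_lt _ (by omega), h7, ?_, A.arc_fam T f (hz i) h2, fun h8 => ?_, fun h8 => ?_⟩
    · exact T.fam_prev _ h1 t (by omega) f v w (by rw [A.ix_tm _ (hmem _ (hk i)).1]; exact h3) hf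
    · exact T.fam_next _ h2 t ht f v' w (by rw [A.ix_tm _ (hmem _ (hz i)).1]; exact h4) hf
    · have := A.ix_inj (by omega) (by omega) h8
      omega
    · have := A.ix_inj (by omega) (by omega) h8
      omega

/-- (H4). -/
theorem hconn (T : ArT S fam cs m ix) (r : ι) :
    ReflTransGen (fun a b => S.Three (ix 0) (ix m) a b ∨ S.Three (ix 0) (ix m) b a) (S.L (ix 0)) r := by
  have key : ∀ t < m, S.act (ix t) →
      ReflTransGen (fun a b => S.Three (ix 0) (ix m) a b ∨ S.Three (ix 0) (ix m) b a) (S.L (ix 0)) (S.L (ix t)) := by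
    intro t
    induction t using Nat.strong_induction_on with
    | _ t ih =>
      intro ht ha
      rcases Nat.eq_zero_or_pos t with rfl | h0
      · exact ReflTransGen.refl
      by_cases h1 : S.act (ix (t - 1))
      · have h2 := A.three_dir T (t := t - 1) (by omega) h1 (by rwa [Nat.sub_add_cancel h0])
        rw [Nat.sub_add_cancel h0] at h2
        exact (ih (t - 1) (by omega) (by omega) h1).tail (Or.inl h2)
      · obtain ⟨h2, h3, -⟩ := T.iso (t - 1) (by omega) h1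
        have h4 := A.three_fam T (t := t - 1) (by omega) h1
        rw [Nat.sub_add_cancel h0] at h4
        exact (ih (t - 1 - 1) (by omega) (by omega) h3).tail (Or.inl h4)
  obtain ⟨t, ht, h1, h2⟩ := T.all r
  rcases lt_or_eq_of_le ht with h3 | h3
  · rw [← h2]; exact key t h3 h1
  · obtain ⟨t', h4, h5, h6⟩ := T.virt
    rw [← h2, h3, ← h6]
    exact key t' h4 h5

/-- **ARCS.** At most two cycles, through the first visit and through the virtual one. -/
theorem arcs [DecidableEq Tok] [Finite Tok] [Finite ι] (T : ArT S fam cs m ix) :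
    ∃ c : ℕ → Bool, ∀ x, (S.Ψ c).SameCycle x (S.e (ix 0)) ∨ (S.Ψ c).SameCycle x (S.e (ix m)) := by
  refine PD.asm A.ok (A.hcov T) (fun r => ?_) (A.ix_lt 0 (Nat.zero_le _)) T.act0 (A.ix_lt m le_rfl) T.actm (fun h => ?_)
    (S.L (ix 0)) (A.hconn T)
  · obtain ⟨t, ht, h1, h2⟩ := T.all r
    exact ⟨ix t, A.ix_lt t ht, h1, h2⟩
  · have := A.ix_inj (Nat.zero_le _) le_rfl h
    have := A.m_pos
    omega

end ArC

end

end Pool.Agent.Lib.MP_688fd0_co.SQ7.H41
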