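import Pool.Agent.Lib.MP_688fd0_co.SQ7.H79.BlkA

/-!
Type C2, B1-FULL, row ARCS (helper41): the families of a block trajectory.

The thread: real visits `0, …, fin`, virtual visit `fin + 1`; the visit `t + 1` arrives by the label `lab t`. `fin` is the start
of the last round of the last block, so the last real visit and the virtual one are both active, and `R - 1` copies of every
visit are real. Family of an active visit = its class modulo `Nv`; of a passive visit = its class with both labels.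
-/

set_option autoImplicit false

namespace Pool.Agent.Lib.MP_688fd0_co.SQ7.H41

/-- The families of a thread: real visits `0, …, n - 1`, virtual visit `n`. -/
structure Thr (n : ℕ) (act : ℕ → Prop) {Φ : Type*} (fam : ℕ → Φ) : Prop where
  n_pos : 1 < n
  al : act (n - 1)
  av : act n
  iso : ∀ t < n, ¬ act t → 0 < t ∧ t + 1 < n ∧ act (t - 1) ∧ act (t + 1)
  same : ∀ t ≤ n, ∀ t' ≤ n, fam t = fam t' → (act t ↔ act t')
  dir : ∀ t, t + 1 < n → act t → act (t + 1) → ∃ s : Fin 3 → ℕ, Function.Injective s ∧ ∀ i, s i + 1 < n ∧ act (s i) ∧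
    act (s i + 1) ∧ fam (s i) = fam t ∧ fam (s i + 1) = fam (t + 1)
  nb : ∀ t < n, ∀ t' < n, ¬ act t → fam t = fam t' → fam (t - 1) = fam (t' - 1) ∧ fam (t + 1) = fam (t' + 1)
  many : ∀ t < n, ¬ act t → ∃ s : Fin 6 → ℕ, Function.Injective s ∧ ∀ i, s i < n ∧ fam (s i) = fam t
  virt : ∃ t < n, fam t = fam n

end Pool.Agent.Lib.MP_688fd0_co.SQ7.H41

namespace Pool.Agent.Lib.MP_688fd0_co.SQ7.H79

open Finset Pool.Agent.Lib.MP_688fd0_co.SQ5.H12

variable {Q : Type*} [Group Q] {Λ : Type*}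

namespace Blk

variable {q : Λ → Q} {T N N0 Nv : Subgroup Q} (P : Blk q T N N0 Nv) {act : Λ → Prop}

/-- The last real visit. -/
def fin : ℕ := (P.q₂ - 1) * P.len + (P.R * P.m - 1) * P.n

theorem two_le_Rm : 2 ≤ P.R * P.m := by
  have : 2 * 1 ≤ P.R * P.m := Nat.mul_le_mul P.R_pos P.m_pos
  omega

theorem fin_pos : 0 < P.fin := by
  have h1 := P.two_le_Rm
  have h2 : 0 < (P.R * P.m - 1) * P.n := Nat.mul_pos (by omega) P.n_pos
  unfold fin
  omega

theorem Rm_len : (P.R * P.m - 1) * P.n + P.n + P.n₁ = P.len := by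
  have h1 := P.two_le_Rm
  have h2 : (P.R * P.m - 1 + 1) * P.n = P.R * P.m * P.n := by rw [Nat.sub_add_cancel (by omega)]
  rw [add_mul, one_mul] at h2
  unfold len
  omega

variable {P}

theorem Iso.fin_lt (I : P.Iso act) : P.fin + 1 < P.τ := by
  have h1 := P.Rm_len
  have h2 := I.n₁_pos
  have h3 := P.n_pos
  have h4 := P.q₂_pos
  unfold fin
  rw [add_assoc]
  exact P.lt_τ (by omega) (by omega)

theorem lab_fin (I : P.Iso act) : P.lab P.fin = P.a 0 := by
  have h1 := P.Rm_len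
  have h2 := I.n₁_pos
  exact lab_form (P := P) (j := P.q₂ - 1) (r := P.R * P.m - 1) (i := 0) (by have := P.n_pos; omega)

theorem Iso.fin_act (I : P.Iso act) : act (P.lab P.fin) ∧ act (P.lab (P.fin - 1)) := by
  have h1 := P.Rm_len
  have h2 := I.n₁_pos
  have h3 := P.n_pos
  constructor
  · rw [lab_fin I]
    by_contra h
    have := (I.body 0 P.n_pos h).1
    omega
  · have h4 := P.fin_pos
    rcases I.prev (j := P.q₂ - 1) (r := P.R * P.m - 1) (i := 0) P.n_pos (by omega) h4 with ⟨h5, -⟩ | ⟨-, h5⟩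
    · omega
    · exact h5

/-- Copies among the real visits `0, …, fin`. -/
theorem Iso.rounds_fin (I : P.Iso act) {t : ℕ} (ht : t + 1 < P.τ) : ∃ f : Fin (P.R - 1) → ℕ, Function.Injective f ∧
    ∀ k, f k + 1 ≤ P.fin ∧ P.lab (f k) = P.lab t ∧ (P.w t)⁻¹ * P.w (f k) ∈ Nv ∧
      (¬ act (P.lab t) → P.lab (f k + 1) = P.lab (t + 1) ∧ f k + 2 ≤ P.fin) ∧
      (0 < f k → (t = 0 ∨ act (P.lab (t - 1))) → act (P.lab (f k - 1))) := by
  obtain ⟨j, r, i, rfl, hi, hr, hlt, -⟩ := P.coords t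
  have hn := P.n_pos
  have hm := P.m_pos
  have hj : j < P.q₂ := P.lt_q₂ (t := 0) (lt_trans (Nat.lt_succ_self _) ht)
  have hjl : j * P.len ≤ (P.q₂ - 1) * P.len := Nat.mul_le_mul_right _ (by omega)
  have hRm := P.two_le_Rm
  have hlen := P.Rm_len
  have hrR : ∀ k : Fin (P.R - 1), r % P.m + P.m * k + 1 ≤ P.R * P.m - 1 := by
    intro k
    have h1 : r % P.m < P.m := Nat.mod_lt _ hm
    have h3 : P.m * ((k : ℕ) + 1) ≤ P.m * (P.R - 1) := Nat.mul_le_mul_left _ k.2
    have h4 : P.m * (P.R - 1) + P.m = P.R * P.m := by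
      have h5 := P.R_pos
      have h6 : P.m * (P.R - 1 + 1) = P.R * P.m := by rw [Nat.sub_add_cancel (by omega), mul_comm]
      rw [mul_add, mul_one] at h6
      exact h6
    rw [mul_add, mul_one] at h3
    omega
  have hoff : ∀ k : Fin (P.R - 1), (r % P.m + P.m * k) * P.n + P.n ≤ (P.R * P.m - 1) * P.n := by
    intro k
    have h3 : (r % P.m + P.m * k + 1) * P.n ≤ (P.R * P.m - 1) * P.n := Nat.mul_le_mul_right _ (hrR k)
    rw [add_mul, one_mul] at h3
    exact h3
  refine ⟨fun k => j * P.len + ((r % P.m + P.m * k) * P.n + i), ?_, fun k => ⟨?_, ?_, ?_, ?_, ?_⟩⟩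
  · intro k k' h
    have h1 : (r % P.m + P.m * (k : ℕ)) * P.n = (r % P.m + P.m * (k' : ℕ)) * P.n := by
      have : j * P.len + ((r % P.m + P.m * (k : ℕ)) * P.n + i) = j * P.len + ((r % P.m + P.m * (k' : ℕ)) * P.n + i) := h
      omega
    have h2 := Nat.eq_of_mul_eq_mul_right hn h1
    have h3 : P.m * (k : ℕ) = P.m * (k' : ℕ) := by omega
    exact Fin.ext (Nat.eq_of_mul_eq_mul_left hm h3)
  · show j * P.len + ((r % P.m + P.m * k) * P.n + i) + 1 ≤ P.fin
    have := hoff k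
    unfold fin
    omega
  · show P.lab (j * P.len + ((r % P.m + P.m * k) * P.n + i)) = _
    rw [lab_form (by have := hoff k; omega), lab_form hlt]
  · show _⁻¹ * P.w (j * P.len + ((r % P.m + P.m * k) * P.n + i)) ∈ Nv
    have hk : (r % P.m + P.m * (k : ℕ)) * P.n + i ≤ P.len := by have := hoff k; omega
    rw [P.w_form _ _ _ hk, P.w_form _ _ _ hlt.le]
    have e1 : (P.lm ^ (P.R * P.m * j + r) : Q) = P.lm ^ (P.R * P.m * j + r % P.m) * P.lm ^ (P.m * (r / P.m)) := by
      rw [← pow_add]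
      congr 1
      have := Nat.mod_add_div r P.m
      omega
    have e2 : (P.lm ^ (P.R * P.m * j + (r % P.m + P.m * k)) : Q) =
        P.lm ^ (P.R * P.m * j + r % P.m) * P.lm ^ (P.m * (k : ℕ)) := by
      rw [← pow_add]
      congr 1
      omega
    have c1 : Commute (P.lm ^ (P.m * (r / P.m)))⁻¹ (P.p i) :=
      ((Commute.pow_right (show Commute (P.p i) P.lm from P.lm_cen _) _).symm).inv_left
    have c2 : Commute (P.lm ^ (P.m * (k : ℕ))) (P.p i) :=
      (Commute.pow_right (show Commute (P.p i) P.lm from P.lm_cen _) _).symm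
    have e3 : (P.y ^ j * P.lm ^ (P.R * P.m * j + r) * P.p i)⁻¹ *
        (P.y ^ j * P.lm ^ (P.R * P.m * j + (r % P.m + P.m * k)) * P.p i) =
        (P.lm ^ (P.m * (r / P.m)))⁻¹ * P.lm ^ (P.m * (k : ℕ)) := by
      rw [e1, e2]
      have : (P.y ^ j * (P.lm ^ (P.R * P.m * j + r % P.m) * P.lm ^ (P.m * (r / P.m))) * P.p i)⁻¹ *
          (P.y ^ j * (P.lm ^ (P.R * P.m * j + r % P.m) * P.lm ^ (P.m * (k : ℕ))) * P.p i) =
          (P.p i)⁻¹ * ((P.lm ^ (P.m * (r / P.m)))⁻¹ * (P.lm ^ (P.m * (k : ℕ)) * P.p i)) := by group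
      rw [this, c2.eq, ← mul_assoc ((P.lm ^ (P.m * (r / P.m)))⁻¹), c1.eq]
      group
    rw [e3]
    exact Nv.mul_mem (Nv.inv_mem (P.lmv _)) (P.lmv _)
  · intro hp
    rw [lab_form hlt] at hp
    obtain ⟨h1, h2, h3, h4, h5, h6, h7⟩ := I.place (j := j) hi hlt hr hp
    have hk : r % P.m + P.m * (k : ℕ) ≤ P.R * P.m := by have := hrR k; omega
    obtain ⟨-, -, g3, -, g5, -, -⟩ := I.place (j := j) (r := r % P.m + P.m * (k : ℕ)) hi (by have := hoff k; omega) hk hp
    constructor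
    · show P.lab (j * P.len + ((r % P.m + P.m * k) * P.n + i) + 1) = _
      have e1 : j * P.len + ((r % P.m + P.m * (k : ℕ)) * P.n + i) + 1 =
          j * P.len + ((r % P.m + P.m * (k : ℕ)) * P.n + (i + 1)) := by omega
      have e2 : j * P.len + (r * P.n + i) + 1 = j * P.len + (r * P.n + (i + 1)) := by omega
      rw [e1, e2, g5, h5]
    · show j * P.len + ((r % P.m + P.m * k) * P.n + i) + 2 ≤ P.fin
      have := hoff k
      unfold fin
      omega
  · intro h0 hpr
    have h0' : 0 < j * P.len + ((r % P.m + P.m * (k : ℕ)) * P.n + i) := h0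
    show act (P.lab (j * P.len + ((r % P.m + P.m * (k : ℕ)) * P.n + i) - 1))
    rcases I.prev hi (by have := hoff k; omega) h0' with ⟨hi0, h1⟩ | ⟨-, h1⟩
    · rw [h1]
      rcases hpr with h2 | h2
      · omega
      · have e : j * P.len + (r * P.n + i) - 1 = j * P.len + (r * P.n + (i - 1)) := by omega
        rw [e, lab_form (by omega)] at h2
        exact h2
    · exact h1

variable (P)

/-- The active visits. -/
def va (act : Λ → Prop) (t : ℕ) : Prop := t = 0 ∨ act (P.lab (t - 1))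

open scoped Classical in
/-- The family of a visit. -/
noncomputable def fm (act : Λ → Prop) (t : ℕ) : (Q ⧸ Nv) ⊕ ((Q ⧸ Nv) × Λ × Λ) :=
  if P.va act t then Sum.inl (QuotientGroup.mk (P.w t)) else Sum.inr (QuotientGroup.mk (P.w t), P.lab (t - 1), P.lab t)

variable {P}

theorem va_succ {t : ℕ} : P.va act (t + 1) ↔ act (P.lab t) := by
  unfold va
  rw [Nat.add_sub_cancel]
  exact ⟨fun h => h.resolve_left (by omega), Or.inr⟩

theorem fm_act {t : ℕ} (h : P.va act t) : P.fm act t = Sum.inl (QuotientGroup.mk (P.w t)) := if_pos h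

theorem fm_pas {t : ℕ} (h : ¬ P.va act t) :
    P.fm act t = Sum.inr (QuotientGroup.mk (P.w t), P.lab (t - 1), P.lab t) := if_neg h

/-- The same family: the same class. -/
theorem fm_class {t t' : ℕ} (h : P.fm act t = P.fm act t') : (P.w t)⁻¹ * P.w t' ∈ Nv := by
  rw [← QuotientGroup.eq]
  by_cases h1 : P.va act t <;> by_cases h2 : P.va act t'
  · rw [fm_act h1, fm_act h2] at h
    exact Sum.inl.inj h
  · rw [fm_act h1, fm_pas h2] at h
    cases h
  · rw [fm_pas h1, fm_act h2] at h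
    cases h
  · rw [fm_pas h1, fm_pas h2] at h
    exact congrArg Prod.fst (Sum.inr.inj h)

/-- The same family: the same kind. -/
theorem fm_va {t t' : ℕ} (h : P.fm act t = P.fm act t') : P.va act t ↔ P.va act t' := by
  by_cases h1 : P.va act t <;> by_cases h2 : P.va act t'
  · exact ⟨fun _ => h2, fun _ => h1⟩
  · rw [fm_act h1, fm_pas h2] at h
    cases h
  · rw [fm_pas h1, fm_act h2] at h
    cases h
  · exact ⟨fun h => absurd h h1, fun h => absurd h h2⟩

/-- The same passive family: the same labels. -/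
theorem fm_lab {t t' : ℕ} (h : P.fm act t = P.fm act t') (ha : ¬ P.va act t) :
    P.lab (t - 1) = P.lab (t' - 1) ∧ P.lab t = P.lab t' := by
  have hb : ¬ P.va act t' := fun h2 => ha ((fm_va h).2 h2)
  rw [fm_pas ha, fm_pas hb] at h
  have h1 := congrArg Prod.snd (Sum.inr.inj h)
  exact ⟨congrArg Prod.fst h1, congrArg Prod.snd h1⟩

/-- The step back. -/
theorem step_class' (hv : Nv.Normal) {t s : ℕ} (h : (P.w (t + 1))⁻¹ * P.w (s + 1) ∈ Nv) (hl : P.lab s = P.lab t) :
    (P.w t)⁻¹ * P.w s ∈ Nv := by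
  rw [P.w_succ, P.w_succ, hl] at h
  have h2 := hv.conj_mem _ h (q (P.lab t))
  have e : q (P.lab t) * ((P.w t * q (P.lab t))⁻¹ * (P.w s * q (P.lab t))) * (q (P.lab t))⁻¹ =
      (P.w t)⁻¹ * P.w s := by group
  rwa [e] at h2

/-- **The families of a block trajectory.** -/
theorem Iso.thr (I : P.Iso act) (hv : Nv.Normal) (hR : 7 ≤ P.R) : H41.Thr (P.fin + 1) (P.va act) (P.fm act) := by
  have hf := I.fin_lt
  obtain ⟨ha1, ha2⟩ := I.fin_act
  have hfp := P.fin_pos
  have hpas : ∀ t < P.fin + 1, ¬ P.va act t → 0 < t ∧ t + 1 < P.fin + 1 ∧ P.va act (t - 1) ∧ P.va act (t + 1) := by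
    intro t ht hp
    have h0 : 0 < t := by
      rcases Nat.eq_zero_or_pos t with h | h
      · exact absurd (Or.inl h) hp
      · exact h
    have hp2 : ¬ act (P.lab (t - 1)) := fun h => hp (Or.inr h)
    obtain ⟨h1, h2, h3, h4⟩ := I.passive (t := t - 1) (by omega) hp2
    refine ⟨h0, ?_, Or.inr h3, ?_⟩
    · rcases (Nat.lt_succ_iff.1 ht).lt_or_eq with h5 | h5
      · omega
      · rw [h5] at hp2
        exact absurd ha2 hp2
    · rw [va_succ]
      rwa [Nat.sub_add_cancel h0] at h4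
  refine ⟨by omega, ?_, va_succ.2 ha1, hpas, fun t _ t' _ h => fm_va h, ?_, ?_, ?_, ?_⟩
  · rw [Nat.add_sub_cancel]
    exact Or.inr ha2
  · intro t ht h1 h2
    obtain ⟨f, hf1, hf2⟩ := I.rounds_fin (t := t) (by omega)
    refine ⟨fun i => f (Fin.castLE (by omega) i), fun i j hij => Fin.castLE_injective (by omega) (hf1 hij), fun i => ?_⟩
    obtain ⟨g1, g2, g3, -, g5⟩ := hf2 (Fin.castLE (by omega) i)
    show f (Fin.castLE (by omega) i) + 1 < P.fin + 1 ∧ P.va act (f (Fin.castLE (by omega) i)) ∧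
      P.va act (f (Fin.castLE (by omega) i) + 1) ∧ P.fm act (f (Fin.castLE (by omega) i)) = P.fm act t ∧
      P.fm act (f (Fin.castLE (by omega) i) + 1) = P.fm act (t + 1)
    generalize f (Fin.castLE (by omega) i) = s at g1 g2 g3 g5 ⊢
    have h3 : P.va act s := by
      rcases Nat.eq_zero_or_pos s with h | h
      · exact Or.inl h
      · exact Or.inr (g5 h h1)
    have h4 : P.va act (s + 1) := by rw [va_succ, g2]; exact va_succ.1 h2
    refine ⟨by omega, h3, h4, ?_, ?_⟩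
    · rw [fm_act h3, fm_act h1]
      exact congrArg Sum.inl (QuotientGroup.eq.2 g3).symm
    · rw [fm_act h4, fm_act h2]
      exact congrArg Sum.inl (QuotientGroup.eq.2 (P.step_class hv g3 g2)).symm
  · intro t ht t' ht' hp h
    have hp' : ¬ P.va act t' := fun h2 => hp ((fm_va h).2 h2)
    obtain ⟨h1, h2, h3, h4⟩ := hpas t ht hp
    obtain ⟨h1', h2', h3', h4'⟩ := hpas t' ht' hp'
    obtain ⟨h5, h6⟩ := fm_lab h hp
    have h7 := fm_class h
    rw [fm_act h3, fm_act h3', fm_act h4, fm_act h4']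
    refine ⟨congrArg Sum.inl (QuotientGroup.eq.2 ?_), congrArg Sum.inl (QuotientGroup.eq.2 (P.step_class hv h7 h6.symm))⟩
    refine step_class' hv ?_ h5.symm
    rw [Nat.sub_add_cancel h1, Nat.sub_add_cancel h1']
    exact h7
  · intro t ht hp
    obtain ⟨h1, h2, h3, h4⟩ := hpas t ht hp
    obtain ⟨t, rfl⟩ : ∃ u, t = u + 1 := ⟨t - 1, by omega⟩
    have hp2 : ¬ act (P.lab t) := fun h => hp (va_succ.2 h)
    obtain ⟨f, hf1, hf2⟩ := I.rounds_fin (t := t) (by omega)
    refine ⟨fun i => f (Fin.castLE (by omega) i) + 1, fun i j hij => ?_, fun i => ?_⟩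
    · have hij : f (Fin.castLE (by omega) i) + 1 = f (Fin.castLE (by omega) j) + 1 := hij
      exact Fin.castLE_injective (by omega) (hf1 (Nat.succ_injective hij))
    obtain ⟨g1, g2, g3, g4, -⟩ := hf2 (Fin.castLE (by omega) i)
    show f (Fin.castLE (by omega) i) + 1 < P.fin + 1 ∧ P.fm act (f (Fin.castLE (by omega) i) + 1) = P.fm act (t + 1)
    generalize f (Fin.castLE (by omega) i) = s at g1 g2 g3 g4 ⊢
    have h5 : ¬ P.va act (s + 1) := by rw [va_succ, g2]; exact hp2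
    refine ⟨by omega, ?_⟩
    rw [fm_pas h5, fm_pas hp, Nat.add_sub_cancel, Nat.add_sub_cancel, g2, (g4 hp2).1,
      QuotientGroup.eq.2 (P.step_class hv g3 g2)]
  · obtain ⟨f, -, hf2⟩ := I.rounds_fin (t := P.fin) hf
    obtain ⟨g1, g2, g3, -, -⟩ := hf2 ⟨0, by omega⟩
    generalize f ⟨0, _⟩ = s at g1 g2 g3
    have h4 : P.va act (s + 1) := by rw [va_succ, g2]; exact ha1
    refine ⟨s + 1, by omega, ?_⟩
    rw [fm_act h4, fm_act (va_succ.2 ha1)]
    exact congrArg Sum.inl (QuotientGroup.eq.2 (P.step_class hv g3 g2)).symm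

/-- Every class modulo `N0` is met by a real visit which arrives with any given label. -/
theorem Iso.hit_fin (I : P.Iso act) (hv : Nv.Normal) {i : ℕ} (hi : i < P.n) {x : Q} (h : (P.p (i + 1))⁻¹ * x ∈ N) :
    ∃ t ≤ P.fin, 0 < t ∧ P.lab (t - 1) = P.a i ∧ (P.w t)⁻¹ * x ∈ N0 := by
  obtain ⟨t, h1, h2, h3, -⟩ := P.hit_lab hi h
  obtain ⟨f, -, hf2⟩ := I.rounds_fin (t := t) h1
  obtain ⟨g1, g2, g3, -, -⟩ := hf2 ⟨0, by have := P.R_pos; omega⟩
  generalize f ⟨0, _⟩ = s at g1 g2 g3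
  refine ⟨s + 1, g1, Nat.succ_pos _, by rw [Nat.add_sub_cancel, g2, h2], ?_⟩
  have h4 := P.le (P.step_class hv g3 g2)
  have h5 := N0.mul_mem (N0.inv_mem h4) h3
  have e : ((P.w (t + 1))⁻¹ * P.w (s + 1))⁻¹ * ((P.w (t + 1))⁻¹ * x) = (P.w (s + 1))⁻¹ * x := by group
  rwa [e] at h5

end Blk

end Pool.Agent.Lib.MP_688fd0_co.SQ7.H79
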