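import Pool.Agent.Lib.MP_688fd0_co.SQ7.Iface
import Pool.Agent.Lib.MP_688fd0_co.SQ7.H41.Arcs
import Pool.Agent.Lib.MP_688fd0_co.SQ7.H41.Fam

/-!
Type C2, B1-FULL, row ARCS (helper41), the case `N_V ≠ 1`, in the interface of the board.

`Cls` = the output of the row COLS: every family `p` has two rails `ρ p i b` (laps `i < l`), all different columns of level `0`,
`ρ p (i + 1) b = ρ p i b * g`. Active visits choose between the rails (the family = the ladder), passive visits use the rail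
`false`, twisted ones both. Together with the thread (`Thr`) there are bits such that the permutation `O * K` has at most two
cycles, through the exits of the last real visit and of the virtual visit.
-/

set_option autoImplicit false

namespace Pool.Agent.Lib.MP_688fd0_co.SQ7.H41

open Equiv Function
open Pool.Agent.Lib.MP_688fd0_co.SQ7.H90

variable {G : Type} [Group G]

/-- The columns of the families. -/
structure Cls (S : Lets G) (Γ : Subgroup G) (lv : G → ℕ) (n : ℕ) (v : ℕ → Vst G) (g : G) (l : ℕ) {Φ : Type}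
    (fam : ℕ → Φ) (w : ℕ → ℕ) (ρ : Φ → ℕ → Bool → G) : Prop where
  l_pos : 0 < l
  w_lt : ∀ t ≤ n, w t < l
  mem : ∀ t ≤ n, ∀ i b, ρ (fam t) i b ∈ Γ ∧ lv (ρ (fam t) i b) = 0
  up : ∀ p i b, ρ p (i + 1) b = ρ p i b * g
  inj : ∀ t ≤ n, ∀ t' ≤ n, ∀ i < l, ∀ i' < l, ∀ b b', ρ (fam t) i b = ρ (fam t') i' b' →
    fam t = fam t' ∧ i = i' ∧ b = b'
  act : ∀ t ≤ n, (v t).act = true → (v t).tw = none ∧ ∀ c, (v t).a c = ρ (fam t) (w t) c
  pas : ∀ t ≤ n, (v t).act = false → ∀ c, (v t).a c = ρ (fam t) (w t) false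
  twi : ∀ t ≤ n, (v t).tw.isSome = true → (v t).w S * ρ (fam t) (w t) false = ρ (fam t) (w t) true
  tws : ∀ t ≤ n, ∀ t' ≤ n, fam t = fam t' → (v t).tw.isSome = (v t').tw.isSome
  cov : ∀ x ∈ Γ, lv x = 0 → ∃ t ≤ n, ∃ j : ℕ, x = ρ (fam t) 0 false * g ^ j

namespace Cls

variable {S : Lets G} {Γ : Subgroup G} {lv : G → ℕ} {n : ℕ} {v : ℕ → Vst G} {g : G} {l : ℕ} {Φ : Type}
  {fam : ℕ → Φ} {w : ℕ → ℕ} {ρ : Φ → ℕ → Bool → G} (C : Cls S Γ lv n v g l fam w ρ)

/-- The column of a rail. -/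
def cl {p : Φ} (h : ∃ t ≤ n, fam t = p) (i : ℕ) (b : Bool) : Col Γ lv :=
  ⟨ρ p i b, by
    obtain ⟨t, ht, rfl⟩ := h
    exact C.mem t ht i b⟩

/-- The token of a rail. -/
def rl {p : Φ} (h : ∃ t ≤ n, fam t = p) (i : ℕ) (b : Bool) : Tok Γ lv n := Sum.inl (C.cl h i b)

theorem rl_inj {p p' : Φ} (h : ∃ t ≤ n, fam t = p) (h' : ∃ t ≤ n, fam t = p') {i i' : ℕ} {b b' : Bool} (hi : i < l)
    (hi' : i' < l) (e : C.rl h i b = C.rl h' i' b') : p = p' ∧ i = i' ∧ b = b' := by
  have h1 : ρ p i b = ρ p' i' b' := congrArg Subtype.val (Sum.inl.inj e)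
  obtain ⟨t, ht, rfl⟩ := h
  obtain ⟨t', ht', rfl⟩ := h'
  exact C.inj t ht t' ht' i hi i' hi' b b' h1

/-- The permutation `O` on the rails. -/
theorem O_rl {O : Perm (Tok Γ lv n)} (hO : ∀ x y : Col Γ lv, y.1 = x.1 * g → O (Sum.inl x) = Sum.inl y) {p : Φ}
    (h : ∃ t ≤ n, fam t = p) (i : ℕ) (b : Bool) : O (C.rl h i b) = C.rl h (i + 1) b :=
  hO _ _ (C.up p i b)

/-- The visit `k` in the order of the levels. -/
def sg (n : ℕ) (σ : ℕ → ℕ) (k : ℕ) : ℕ := min (σ k) n

theorem sg_le (n : ℕ) (σ : ℕ → ℕ) (k : ℕ) : sg n σ k ≤ n := min_le_right _ _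

theorem sg_eq {n : ℕ} {σ : ℕ → ℕ} {k : ℕ} (h : σ k ≤ n) : sg n σ k = σ k := min_eq_left h

/-- The token of the visit `k`. -/
def te (Γ : Subgroup G) (lv : G → ℕ) (n : ℕ) (σ : ℕ → ℕ) (k : ℕ) : Tok Γ lv n :=
  Sum.inr ⟨sg n σ k, Nat.lt_succ_of_le (sg_le n σ k)⟩

/-- The ladders: families of active visits. -/
abbrev La (n : ℕ) (v : ℕ → Vst G) (fam : ℕ → Φ) : Type := {p : Φ // ∃ t ≤ n, (v t).act = true ∧ fam t = p}

/-- The passive families. -/
abbrev Pa (n : ℕ) (v : ℕ → Vst G) (fam : ℕ → Φ) : Type := {p : Φ // ∃ t ≤ n, (v t).act = false ∧ fam t = p}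

omit [Group G] in
theorem La.us (p : La n v fam) : ∃ t ≤ n, fam t = p.1 := by
  obtain ⟨t, h1, -, h2⟩ := p.2
  exact ⟨t, h1, h2⟩

omit [Group G] in
theorem Pa.us (p : Pa n v fam) : ∃ t ≤ n, fam t = p.1 := by
  obtain ⟨t, h1, -, h2⟩ := p.2
  exact ⟨t, h1, h2⟩

instance : Finite (La n v fam) := by
  have : ({p | ∃ t ≤ n, (v t).act = true ∧ fam t = p} : Set Φ).Finite := by
    refine ((Set.finite_Iic n).image fam).subset ?_
    rintro p ⟨t, h1, -, h2⟩
    exact ⟨t, h1, h2⟩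
  exact this.to_subtype

/-- A passive family is twisted. -/
noncomputable def ptw (p : Pa n v fam) : Bool := (v p.2.choose).tw.isSome

include C in
theorem ptw_eq (p : Pa n v fam) {t : ℕ} (ht : t ≤ n) (h : fam t = p.1) : ptw p = (v t).tw.isSome := by
  have h1 := p.2.choose_spec
  exact C.tws _ h1.1 t ht (h1.2.2.trans h.symm)

/-- The columns of a passive family. -/
noncomputable def cs (p : Pa n v fam) (i : ℕ) : List (Tok Γ lv n) :=
  if ptw p then [C.rl (Pa.us p) i false, C.rl (Pa.us p) i true] else [C.rl (Pa.us p) i false]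

theorem mem_cs {p : Pa n v fam} {i : ℕ} {x : Tok Γ lv n} (h : x ∈ C.cs p i) : ∃ b, x = C.rl (Pa.us p) i b := by
  unfold cs at h
  split_ifs at h
  · rcases List.mem_cons.1 h with h | h
    · exact ⟨_, h⟩
    · exact ⟨_, List.mem_singleton.1 h⟩
  · exact ⟨_, List.mem_singleton.1 h⟩

theorem false_mem_cs (p : Pa n v fam) (i : ℕ) : C.rl (Pa.us p) i false ∈ C.cs p i := by
  unfold cs
  split_ifs
  · exact List.mem_cons_self
  · exact List.mem_cons_self

theorem cs_len (p : Pa n v fam) (i : ℕ) : (C.cs p i).length ≤ 2 := by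
  unfold cs
  split_ifs
  · exact le_rfl
  · exact Nat.le_succ 1

open Classical in
/-- The ladder of the visit `k`. -/
noncomputable def lad (T : Thr n (fun t => (v t).act = true) fam) (σ : ℕ → ℕ) (k : ℕ) : La n v fam :=
  if h : (v (sg n σ k)).act = true then ⟨fam (sg n σ k), _, sg_le n σ k, h, rfl⟩ else ⟨fam n, n, le_rfl, T.av, rfl⟩

omit [Group G] in
theorem lad_eq (T : Thr n (fun t => (v t).act = true) fam) {σ : ℕ → ℕ} {k : ℕ} (h : (v (sg n σ k)).act = true) :
    (lad T σ k).1 = fam (sg n σ k) := by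
  unfold lad
  rw [dif_pos h]

/-- The passive family of the visit `k`. -/
noncomputable def pf (w : ℕ → ℕ) (n : ℕ) (v : ℕ → Vst G) (fam : ℕ → Φ) (σ : ℕ → ℕ) (k : ℕ) :
    Option (Pa n v fam × ℕ) :=
  if h : (v (sg n σ k)).act = false then some (⟨fam (sg n σ k), _, sg_le n σ k, h, rfl⟩, w (sg n σ k)) else none

omit [Group G] in
theorem pf_none {σ : ℕ → ℕ} {k : ℕ} : pf w n v fam σ k = none ↔ (v (sg n σ k)).act = true := by
  unfold pf
  split_ifs with h
  · simp [h]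
  · simpa using h

omit [Group G] in
theorem pf_some {σ : ℕ → ℕ} {k i : ℕ} {p : Pa n v fam} : pf w n v fam σ k = some (p, i) ↔
    (v (sg n σ k)).act = false ∧ fam (sg n σ k) = p.1 ∧ w (sg n σ k) = i := by
  unfold pf
  constructor
  · intro h
    split_ifs at h with h1
    have h2 := Option.some.inj h
    refine ⟨h1, ?_, congrArg Prod.snd h2⟩
    exact congrArg (fun x : Pa n v fam × ℕ => x.1.1) h2
  · rintro ⟨h1, h2, rfl⟩
    rw [dif_pos h1]
    have : (⟨fam (sg n σ k), _, sg_le n σ k, h1, rfl⟩ : Pa n v fam) = p := Subtype.ext h2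
    rw [this]

section

variable [DecidableEq G]

/-- The data of the assembly. -/
noncomputable def pd (T : Thr n (fun t => (v t).act = true) fam) (σ : ℕ → ℕ) (O : Perm (Tok Γ lv n)) :
    PD (Tok Γ lv n) (La n v fam) where
  O := O
  n := n + 1
  act := fun k => (v (sg n σ k)).act = true
  π := fun k => evis Γ lv n ⟨sg n σ k, Nat.lt_succ_of_le (sg_le n σ k)⟩ (v (sg n σ k)).tw.isSome
    (C.cl ⟨_, sg_le n σ k, rfl⟩ (w (sg n σ k)) false) (C.cl ⟨_, sg_le n σ k, rfl⟩ (w (sg n σ k)) true)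
  e := te Γ lv n σ
  y := fun k b => C.rl (La.us (lad T σ k)) (w (sg n σ k)) b
  L := lad T σ
  w := fun k => w (sg n σ k)
  l := l
  ρ := fun p i b => C.rl (La.us p) i b

omit [DecidableEq G] in
theorem te_inj {σ : ℕ → ℕ} (hσ : ∀ k ≤ n, σ k ≤ n) (hi : ∀ k ≤ n, ∀ k' ≤ n, σ k = σ k' → k = k') {k k' : ℕ}
    (hk : k ≤ n) (hk' : k' ≤ n) (h : te Γ lv n σ k = te Γ lv n σ k') : k = k' := by
  have h1 := congrArg Fin.val (Sum.inr.inj h)
  have h2 : sg n σ k = sg n σ k' := h1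
  rw [sg_eq (hσ k hk), sg_eq (hσ k' hk')] at h2
  exact hi k hk k' hk' h2

omit [DecidableEq G] in
theorem te_rl {σ : ℕ → ℕ} {k : ℕ} {p : Φ} (h : ∃ t ≤ n, fam t = p) (i : ℕ) (b : Bool) : te Γ lv n σ k ≠ C.rl h i b :=
  fun h => nomatch h

omit [DecidableEq G] in
/-- The inverse of the order. -/
theorem exists_si {n : ℕ} {σ : ℕ → ℕ} (hσ : ∀ k ≤ n, σ k ≤ n) (hi : ∀ k ≤ n, ∀ k' ≤ n, σ k = σ k' → k = k') :
    ∃ si : ℕ → ℕ, (∀ t ≤ n, si t ≤ n ∧ σ (si t) = t) ∧ ∀ k ≤ n, si (σ k) = k := by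
  classical
  have h1 : Function.Surjective (fun k : Fin (n + 1) => (⟨σ k, Nat.lt_succ_of_le (hσ k (Nat.lt_succ_iff.1 k.2))⟩ :
      Fin (n + 1))) := by
    refine Finite.surjective_of_injective fun k k' h => ?_
    exact Fin.ext (hi k (Nat.lt_succ_iff.1 k.2) k' (Nat.lt_succ_iff.1 k'.2) (congrArg Fin.val h))
  have h2 : ∀ t, ∃ k, t ≤ n → k ≤ n ∧ σ k = t := by
    intro t
    by_cases ht : t ≤ n
    · obtain ⟨k, hk⟩ := h1 ⟨t, Nat.lt_succ_of_le ht⟩
      exact ⟨k, fun _ => ⟨Nat.lt_succ_iff.1 k.2, congrArg Fin.val hk⟩⟩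
    · exact ⟨0, fun h => absurd h ht⟩
  choose si hsi using h2
  refine ⟨si, hsi, fun k hk => ?_⟩
  obtain ⟨h3, h4⟩ := hsi (σ k) (hσ k hk)
  exact hi _ h3 k hk h4

/-- Reversed time. -/
def rv (n t : ℕ) : ℕ := if t = n then n else n - 1 - t

omit [DecidableEq G] in
theorem rv_le {n t : ℕ} (h : t ≤ n) : rv n t ≤ n := by
  unfold rv
  split_ifs <;> omega

omit [DecidableEq G] in
theorem rv_rv {n t : ℕ} (h : t ≤ n) : rv n (rv n t) = t := by
  unfold rv
  split_ifs <;> omega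

omit [DecidableEq G] in
theorem rv_lt {n t : ℕ} (h : t < n) : rv n t = n - 1 - t := if_neg (by omega)

omit [DecidableEq G] in
theorem rv_n {n : ℕ} : rv n n = n := if_pos rfl

variable {σ : ℕ → ℕ} {O : Perm (Tok Γ lv n)} {si : ℕ → ℕ}

omit [DecidableEq G] in
theorem te_si (h : ∀ t ≤ n, si t ≤ n ∧ σ (si t) = t) {t : ℕ} (ht : t ≤ n) :
    te Γ lv n σ (si t) = Sum.inr ⟨t, Nat.lt_succ_of_le ht⟩ := by
  have h1 := (h t ht).2
  have h2 : sg n σ (si t) = t := by rw [sg_eq (by omega), h1]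
  unfold te
  exact congrArg Sum.inr (Fin.ext h2)

/-- The columns. -/
theorem arC (T : Thr n (fun t => (v t).act = true) fam) (hσ : ∀ k ≤ n, σ k ≤ n)
    (hi : ∀ k ≤ n, ∀ k' ≤ n, σ k = σ k' → k = k') (h1 : ∀ t ≤ n, si t ≤ n ∧ σ (si t) = t)
    (h2 : ∀ k ≤ n, si (σ k) = k) (hO : ∀ x y : Col Γ lv, y.1 = x.1 * g → O (Sum.inl x) = Sum.inl y)
    (hO' : ∀ t, O (Sum.inr t) = Sum.inr (thr n t)) (hg : 0 < orderOf g)
    (hgl : ∀ x ∈ Γ, lv x = 0 → x * g ∈ Γ ∧ lv (x * g) = 0) :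
    ArC (C.pd T σ O) (pf w n v fam σ) (fun p i => C.cs p i) n (fun k => rv n (σ k)) (fun t => si (rv n t)) := by
  have hn := T.n_pos
  have htw : ∀ k, (v (sg n σ k)).act = true → (v (sg n σ k)).tw.isSome = false := by
    intro k hk
    rw [(C.act _ (sg_le n σ k) hk).1]
    rfl
  refine {
    l_pos := C.l_pos
    nm := rfl
    m_pos := by omega
    tm_le := fun k hk => rv_le (hσ k (Nat.lt_succ_iff.1 hk))
    tm_ix := fun t ht => ?_
    ix_tm := fun k hk => ?_
    ix_lt := fun t ht => Nat.lt_succ_of_le (h1 _ (rv_le ht)).1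
    e_inj := fun k hk k' hk' h => te_inj hσ hi (Nat.lt_succ_iff.1 hk) (Nat.lt_succ_iff.1 hk') h
    O_e := fun t ht => ?_
    O_last := fun t ht => ?_
    O_virt := ?_
    fam_act := fun k _ => pf_none
    lap := fun k hk f i h => ?_
    run := fun k hk f i h => ?_
    off := fun k hk f i h x hx hx' => ?_
    e_cs := fun k hk f i hi' h => ?_
    cs_cs := fun f f' i hi' i' hi'' x hx hx' => ?_
    cs_up := fun f i hi' => ?_
    w_lt := fun k hk _ => C.w_lt _ (sg_le n σ k)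
    y_eq := fun k hk _ b => rfl
    ρ_inj := fun r j b r' j' b' hj hj' h => ?_
    e_ρ := fun k hk r j b hj => C.te_rl _ _ _
    ρ_cs := fun r j b hj f i hi' h => ?_
    ρ_up := fun r j b hj => C.O_rl hO _ _ _
    cov := fun x => ?_ }
  · show rv n (σ (si (rv n t))) = t
    rw [(h1 _ (rv_le ht)).2, rv_rv ht]
  · show si (rv n (rv n (σ k))) = k
    rw [rv_rv (hσ k (Nat.lt_succ_iff.1 hk)), h2 k (Nat.lt_succ_iff.1 hk)]
  · show O (te Γ lv n σ (si (rv n t))) = te Γ lv n σ (si (rv n (t + 1)))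
    rw [te_si h1 (rv_le (by omega)), te_si h1 (rv_le (by omega)), hO']
    refine congrArg Sum.inr (Fin.ext ?_)
    unfold thr
    simp only [rv_lt (show t < n by omega), rv_lt (show t + 1 < n by omega)]
    split_ifs <;> simp only [] <;> omega
  · show O (te Γ lv n σ (si (rv n t))) = te Γ lv n σ (si (rv n 0))
    rw [te_si h1 (rv_le (by omega)), te_si h1 (rv_le (by omega)), hO']
    refine congrArg Sum.inr (Fin.ext ?_)
    unfold thr
    simp only [rv_lt (show t < n by omega), rv_lt (show 0 < n by omega)]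
    split_ifs <;> simp only [] <;> omega
  · show O (te Γ lv n σ (si (rv n n))) = te Γ lv n σ (si (rv n n))
    rw [te_si h1 (rv_le le_rfl), hO']
    refine congrArg Sum.inr (Fin.ext ?_)
    unfold thr
    simp only [rv_n, if_true]
  · obtain ⟨-, -, rfl⟩ := pf_some.1 h
    exact C.w_lt _ (sg_le n σ k)
  · obtain ⟨h3, h4, rfl⟩ := pf_some.1 h
    have h5 := C.ptw_eq f (sg_le n σ k) h4
    obtain ⟨p, hp⟩ := f
    have h4 : fam (sg n σ k) = p := h4
    subst h4
    show (C.cs _ _ ++ [te Γ lv n σ k]).map (evis Γ lv n ⟨sg n σ k, _⟩ (v (sg n σ k)).tw.isSome (C.cl _ _ false)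
      (C.cl _ _ true)) = te Γ lv n σ k :: C.cs _ _
    have hne : C.cl (p := fam (sg n σ k)) ⟨_, sg_le n σ k, rfl⟩ (w (sg n σ k)) false ≠
        C.cl (p := fam (sg n σ k)) ⟨_, sg_le n σ k, rfl⟩ (w (sg n σ k)) true := fun h => by
      have := (C.rl_inj ⟨_, sg_le n σ k, rfl⟩ ⟨_, sg_le n σ k, rfl⟩ (C.w_lt _ (sg_le n σ k)) (C.w_lt _ (sg_le n σ k))
        (congrArg Sum.inl h)).2.2
      cases this
    unfold cs rl te evis
    rw [h5]
    rcases h6 : (v (sg n σ k)).tw.isSome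
    · simp
    · simp [hne.symm, swap_apply_def]
  · obtain ⟨h3, h4, rfl⟩ := pf_some.1 h
    have h5 := C.ptw_eq f (sg_le n σ k) h4
    obtain ⟨p, hp⟩ := f
    have h4 : fam (sg n σ k) = p := h4
    subst h4
    show evis Γ lv n ⟨sg n σ k, _⟩ (v (sg n σ k)).tw.isSome (C.cl _ _ false) (C.cl _ _ true) x = x
    have hx' : x ≠ te Γ lv n σ k := hx'
    unfold te at hx'
    unfold cs rl at hx
    rw [h5] at hx
    unfold evis
    rcases h6 : (v (sg n σ k)).tw.isSome
    · rw [h6] at hx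
      simp only [Bool.false_eq_true, if_false, List.mem_singleton] at hx
      simp only [Bool.false_eq_true, if_false, one_mul]
      exact swap_apply_of_ne_of_ne hx' hx
    · rw [h6] at hx
      simp only [if_true, List.mem_cons, List.not_mem_nil, or_false, not_or] at hx
      simp only [if_true, Perm.mul_apply]
      rw [swap_apply_of_ne_of_ne hx' hx.1, swap_apply_of_ne_of_ne hx.1 hx.2]
  · obtain ⟨b, hb⟩ := C.mem_cs h
    exact C.te_rl _ _ _ hb
  · obtain ⟨b, hb⟩ := C.mem_cs hx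
    obtain ⟨b', hb'⟩ := C.mem_cs hx'
    obtain ⟨g1, g2, -⟩ := C.rl_inj _ _ hi' hi'' (hb.symm.trans hb')
    exact ⟨Subtype.ext g1, g2⟩
  · show (C.cs f i).map O = C.cs f (i + 1)
    unfold cs
    split_ifs
    · simp only [List.map_cons, List.map_nil, C.O_rl hO]
    · simp only [List.map_cons, List.map_nil, C.O_rl hO]
  · obtain ⟨g1, g2, g3⟩ := C.rl_inj _ _ hj hj' h
    exact ⟨Subtype.ext g1, g2, g3⟩
  · obtain ⟨b', hb⟩ := C.mem_cs h
    obtain ⟨g1, -, -⟩ := C.rl_inj _ _ hj hi' hb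
    obtain ⟨t, ht, g2, g3⟩ := r.2
    obtain ⟨t', ht', g2', g3'⟩ := f.2
    have g4 := (T.same t ht t' ht' (g3.trans (g1.trans g3'.symm))).1 g2
    rw [g2'] at g4
    cases g4
  · rcases x with ⟨x, hx1, hx2⟩ | t
    · obtain ⟨t, ht, j, hj⟩ := C.cov x hx1 hx2
      have hpw : ∀ i : ℕ, ∃ h, (O ^ i) (Sum.inl ⟨x, hx1, hx2⟩) = Sum.inl (⟨x * g ^ i, h⟩ : Col Γ lv) := by
        intro i
        induction i with
        | zero => exact ⟨by rw [pow_zero, mul_one]; exact ⟨hx1, hx2⟩, by simp⟩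
        | succ i ih =>
          obtain ⟨h3, h4⟩ := ih
          obtain ⟨h5, h6⟩ := hgl _ h3.1 h3.2
          refine ⟨by rw [pow_succ, ← mul_assoc]; exact ⟨h5, h6⟩, ?_⟩
          rw [pow_succ', Perm.mul_apply, h4]
          exact hO _ _ (by show x * g ^ (i + 1) = x * g ^ i * g; rw [pow_succ, mul_assoc])
      obtain ⟨h3, h4⟩ := hpw ((orderOf g - 1) * j)
      have h5 : x * g ^ ((orderOf g - 1) * j) = ρ (fam t) 0 false := by
        have h6 : j + (orderOf g - 1) * j = orderOf g * j := by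
          obtain ⟨o, ho⟩ : ∃ o, orderOf g = o + 1 := ⟨orderOf g - 1, by omega⟩
          rw [ho, Nat.add_sub_cancel]
          ring
        rw [hj, mul_assoc, ← pow_add, h6, pow_mul, pow_orderOf_eq_one, one_pow, mul_one]
      have h7 : (O ^ ((orderOf g - 1) * j)) (Sum.inl ⟨x, hx1, hx2⟩) = C.rl ⟨t, ht, rfl⟩ 0 false := by
        rw [h4]
        exact congrArg Sum.inl (Subtype.ext h5)
      refine ⟨(orderOf g - 1) * j, ?_⟩
      rcases ha : (v t).act
      · refine Or.inr (Or.inr ⟨⟨fam t, t, ht, ha, rfl⟩, 0, C.l_pos, ?_⟩)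
        rw [show (C.pd T σ O).O = O from rfl, h7]
        exact C.false_mem_cs _ _
      · exact Or.inl ⟨⟨fam t, t, ht, ha, rfl⟩, 0, false, C.l_pos, h7⟩
    · refine ⟨0, Or.inr (Or.inl ⟨si t, Nat.lt_succ_of_le (h1 t (Nat.lt_succ_iff.1 t.2)).1, ?_⟩)⟩
      exact (te_si h1 (Nat.lt_succ_iff.1 t.2)).symm

omit [DecidableEq G] in
theorem sg_si (h1 : ∀ t ≤ n, si t ≤ n ∧ σ (si t) = t) {t : ℕ} (ht : t ≤ n) : sg n σ (si t) = t := by
  have h2 := (h1 t ht).2
  rw [sg_eq (by omega), h2]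

/-- The trajectory. -/
theorem arT (T : Thr n (fun t => (v t).act = true) fam) (h1 : ∀ t ≤ n, si t ≤ n ∧ σ (si t) = t) :
    ArT (C.pd T σ O) (pf w n v fam σ) (fun p i => C.cs p i) n (fun t => si (rv n t)) := by
  have hn := T.n_pos
  have hsg : ∀ t ≤ n, sg n σ (si t) = t := fun t ht => sg_si h1 ht
  have hact : ∀ t ≤ n, ((C.pd T σ O).act (si t) ↔ (v t).act = true) := by
    intro t ht
    show (v (sg n σ (si t))).act = true ↔ _
    rw [hsg t ht]
  have hlad : ∀ t ≤ n, (v t).act = true → ((C.pd T σ O).L (si t)).1 = fam t := by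
    intro t ht ha
    show (lad T σ (si t)).1 = _
    rw [lad_eq T (by rw [hsg t ht]; exact ha), hsg t ht]
  have hpf : ∀ t ≤ n, ∀ (f : Pa n v fam) (i : ℕ), pf w n v fam σ (si t) = some (f, i) →
      (v t).act = false ∧ fam t = f.1 := by
    intro t ht f i h
    obtain ⟨g1, g2, -⟩ := pf_some.1 h
    rw [hsg t ht] at g1 g2
    exact ⟨g1, g2⟩
  have hfalse : ∀ t, (v t).act = false → ¬ (v t).act = true := fun t h => by rw [h]; exact Bool.false_ne_true
  refine {
    act0 := ?_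
    actm := ?_
    iso := fun t ht h => ?_
    dir := fun t ht h h' => ?_
    fam_prev := fun t ht t' ht' f i i' h h' => ?_
    fam_next := fun t ht t' ht' f i i' h h' => ?_
    big := fun f => ?_
    virt := ?_
    all := fun r => ?_ }
  · show (C.pd T σ O).act (si (rv n 0))
    rw [rv_lt (by omega), Nat.sub_zero]
    exact (hact _ (by omega)).2 T.al
  · show (C.pd T σ O).act (si (rv n n))
    rw [rv_n]
    exact (hact _ le_rfl).2 T.av
  · have h : ¬ (C.pd T σ O).act (si (rv n t)) := h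
    show 0 < t ∧ (C.pd T σ O).act (si (rv n (t - 1))) ∧ (C.pd T σ O).act (si (rv n (t + 1)))
    rw [rv_lt ht, hact _ (by omega)] at h
    obtain ⟨g1, g2, g3, g4⟩ := T.iso _ (by omega) h
    have h0 : 0 < t := by omega
    refine ⟨h0, ?_, ?_⟩
    · rw [rv_lt (by omega), hact _ (by omega), show n - 1 - (t - 1) = n - 1 - t + 1 by omega]
      exact g4
    · rw [rv_lt (by omega), hact _ (by omega), show n - 1 - (t + 1) = n - 1 - t - 1 by omega]
      exact g3
  · have h : (C.pd T σ O).act (si (rv n t)) := h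
    have h' : (C.pd T σ O).act (si (rv n (t + 1))) := h'
    rw [rv_lt (by omega), hact _ (by omega)] at h h'
    obtain ⟨u, hu⟩ : ∃ u, u = n - 1 - (t + 1) := ⟨_, rfl⟩
    have hu' : n - 1 - t = u + 1 := by omega
    rw [← hu] at h'
    rw [hu'] at h
    obtain ⟨s, hs1, hs2⟩ := T.dir u (by omega) h' h
    refine ⟨fun i => n - 2 - s i, fun i j hij => ?_, fun i => ?_⟩
    · have e1 := (hs2 i).1
      have e2 := (hs2 j).1
      have hij : n - 2 - s i = n - 2 - s j := hij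
      exact hs1 (by omega)
    · obtain ⟨g1, g2, g3, g4, g5⟩ := hs2 i
      show n - 2 - s i + 1 < n ∧ (C.pd T σ O).act (si (rv n (n - 2 - s i))) ∧
        (C.pd T σ O).act (si (rv n (n - 2 - s i + 1))) ∧
        (C.pd T σ O).L (si (rv n (n - 2 - s i))) = (C.pd T σ O).L (si (rv n t)) ∧
        (C.pd T σ O).L (si (rv n (n - 2 - s i + 1))) = (C.pd T σ O).L (si (rv n (t + 1)))
      rw [rv_lt (show n - 2 - s i < n by omega), rv_lt (show n - 2 - s i + 1 < n by omega), rv_lt (show t < n by omega),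
        rv_lt (show t + 1 < n by omega), show n - 1 - (n - 2 - s i) = s i + 1 by omega,
        show n - 1 - (n - 2 - s i + 1) = s i by omega, hu', ← hu]
      refine ⟨by omega, (hact _ (by omega)).2 g3, (hact _ (by omega)).2 g2, Subtype.ext ?_, Subtype.ext ?_⟩
      · rw [hlad _ (by omega) g3, hlad _ (by omega) h, g5]
      · rw [hlad _ (by omega) g2, hlad _ (by omega) h', g4]
  · have h : pf w n v fam σ (si (rv n t)) = some (f, i) := h
    have h' : pf w n v fam σ (si (rv n t')) = some (f, i') := h'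
    show (C.pd T σ O).L (si (rv n (t - 1))) = (C.pd T σ O).L (si (rv n (t' - 1)))
    rw [rv_lt ht] at h
    rw [rv_lt ht'] at h'
    obtain ⟨g1, g2⟩ := hpf _ (by omega) f i h
    obtain ⟨g1', g2'⟩ := hpf _ (by omega) f i' h'
    obtain ⟨e1, e2, e3, e4⟩ := T.iso _ (by omega) (hfalse _ g1)
    obtain ⟨e1', e2', e3', e4'⟩ := T.iso _ (by omega) (hfalse _ g1')
    obtain ⟨-, e5⟩ := T.nb _ (by omega) _ (by omega) (hfalse _ g1) (g2.trans g2'.symm)
    rw [rv_lt (show t - 1 < n by omega), rv_lt (show t' - 1 < n by omega),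
      show n - 1 - (t - 1) = n - 1 - t + 1 by omega, show n - 1 - (t' - 1) = n - 1 - t' + 1 by omega]
    refine Subtype.ext ?_
    rw [hlad _ (by omega) e4, hlad _ (by omega) e4', e5]
  · have h : pf w n v fam σ (si (rv n t)) = some (f, i) := h
    have h' : pf w n v fam σ (si (rv n t')) = some (f, i') := h'
    show (C.pd T σ O).L (si (rv n (t + 1))) = (C.pd T σ O).L (si (rv n (t' + 1)))
    rw [rv_lt (by omega)] at h
    rw [rv_lt (by omega)] at h'
    obtain ⟨g1, g2⟩ := hpf _ (by omega) f i h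
    obtain ⟨g1', g2'⟩ := hpf _ (by omega) f i' h'
    obtain ⟨e1, e2, e3, e4⟩ := T.iso _ (by omega) (hfalse _ g1)
    obtain ⟨e1', e2', e3', e4'⟩ := T.iso _ (by omega) (hfalse _ g1')
    obtain ⟨e5, -⟩ := T.nb _ (by omega) _ (by omega) (hfalse _ g1) (g2.trans g2'.symm)
    rw [rv_lt (show t + 1 < n by omega), rv_lt (show t' + 1 < n by omega),
      show n - 1 - (t + 1) = n - 1 - t - 1 by omega, show n - 1 - (t' + 1) = n - 1 - t' - 1 by omega]
    refine Subtype.ext ?_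
    rw [hlad _ (by omega) e3, hlad _ (by omega) e3', e5]
  · obtain ⟨t, ht, ha, hf⟩ := f.2
    have ht' : t < n := by
      rcases ht.lt_or_eq with h | h
      · exact h
      · exact absurd T.av (by rw [h] at ha; exact hfalse n ha)
    obtain ⟨s, hs1, hs2⟩ := T.many t ht' (hfalse _ ha)
    have h3 : ∀ i, si (s i) ∈ Que.VS (pf w n v fam σ) (n + 1) f l := by
      intro i
      obtain ⟨g1, g2⟩ := hs2 i
      have g3 : (v (s i)).act = false := by
        have := T.same (s i) g1.le t ht g2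
        rcases h : (v (s i)).act
        · rfl
        · exact absurd (this.1 h) (hfalse _ ha)
      refine Que.mem_VS.2 ⟨Nat.lt_succ_of_le (h1 _ g1.le).1, w (s i), C.w_lt _ g1.le, ?_⟩
      rw [pf_some, hsg _ g1.le]
      exact ⟨g3, g2.trans hf, rfl⟩
    have h4 : (Finset.univ.image fun i => si (s i)) ⊆ (Que.VS (pf w n v fam σ) (n + 1) f l).toFinset := by
      intro x hx
      obtain ⟨i, -, rfl⟩ := Finset.mem_image.1 hx
      exact List.mem_toFinset.2 (h3 i)
    have h5 := Finset.card_le_card h4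
    rw [Finset.card_image_of_injective _ (fun i j hij => hs1 (by
      have hij : si (s i) = si (s j) := hij
      rw [← (h1 _ (hs2 i).1.le).2, hij, (h1 _ (hs2 j).1.le).2])), List.toFinset_card_of_nodup (Que.VS_nodup f l),
      Finset.card_univ, Fintype.card_fin] at h5
    have h6 := C.cs_len f 0
    show (C.cs f 0).length + 4 ≤ (Que.VS (pf w n v fam σ) (n + 1) f l).length
    omega
  · obtain ⟨t, ht, hf⟩ := T.virt
    have ha : (v t).act = true := (T.same t ht.le n le_rfl hf).2 T.av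
    refine ⟨n - 1 - t, by omega, ?_, ?_⟩
    · show (C.pd T σ O).act (si (rv n (n - 1 - t)))
      rw [rv_lt (by omega), show n - 1 - (n - 1 - t) = t by omega]
      exact (hact _ (by omega)).2 ha
    · show (C.pd T σ O).L (si (rv n (n - 1 - t))) = (C.pd T σ O).L (si (rv n n))
      rw [rv_lt (by omega), rv_n, show n - 1 - (n - 1 - t) = t by omega]
      refine Subtype.ext ?_
      rw [hlad _ (by omega) ha, hlad _ le_rfl T.av, hf]
  · obtain ⟨t, ht, ha, hf⟩ := r.2
    refine ⟨rv n t, rv_le ht, ?_, ?_⟩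
    · show (C.pd T σ O).act (si (rv n (rv n t)))
      rw [rv_rv ht]
      exact (hact _ ht).2 ha
    · show (C.pd T σ O).L (si (rv n (rv n t))) = r
      rw [rv_rv ht]
      refine Subtype.ext ?_
      rw [hlad _ ht ha, hf]

omit [DecidableEq G] in
theorem kpr_eq {D : Type} (E : ℕ → Perm D) (E' : ℕ → Perm D) (m : ℕ) (h : ∀ k < m, E k = E' k) :
    kpr E m = pl E' (List.range m) := by
  induction m with
  | zero => rfl
  | succ m ih =>
    rw [List.range_succ, pl_append]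
    show E m * kpr E m = (1 * E' m) * _
    rw [ih fun k hk => h k (by omega), h m (Nat.lt_succ_self _), one_mul]

include C in
/-- **ARCS, `N_V ≠ 1`.** There are bits such that the permutation `O * K` has at most two cycles: through the exit of the last
real visit and through the exit of the virtual one. -/
theorem arcsW [Finite G] (T : Thr n (fun t => (v t).act = true) fam) (hσ : ∀ k ≤ n, σ k ≤ n)
    (hi : ∀ k ≤ n, ∀ k' ≤ n, σ k = σ k' → k = k') (hO : ∀ x y : Col Γ lv, y.1 = x.1 * g → O (Sum.inl x) = Sum.inl y)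
    (hO' : ∀ t, O (Sum.inr t) = Sum.inr (thr n t)) (hgl : ∀ x ∈ Γ, lv x = 0 → x * g ∈ Γ ∧ lv (x * g) = 0) :
    ∃ c : ℕ → Bool, ∀ E : ℕ → Perm (Tok Γ lv n),
      (∀ k ≤ n, ∀ (t : Fin (n + 1)) (a w : Col Γ lv), t.1 = σ k → a.1 = (v t.1).col (c t.1) →
        w.1 = (v t.1).w S * a.1 → E k = evis Γ lv n t (v t.1).tw.isSome a w) →
      ∀ x : Tok Γ lv n, (O * kpr E (n + 1)).SameCycle x (Sum.inr ⟨n - 1, by omega⟩) ∨
        (O * kpr E (n + 1)).SameCycle x (Sum.inr (Fin.last n)) := by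
  obtain ⟨si, h1, h2⟩ := exists_si hσ hi
  have A := C.arC (O := O) T hσ hi h1 h2 hO hO' (orderOf_pos g) hgl
  obtain ⟨c', hc'⟩ := A.arcs (C.arT (O := O) T h1)
  have hn := T.n_pos
  refine ⟨fun t => c' (si t), fun E hE x => ?_⟩
  have hK : kpr E (n + 1) = (C.pd T σ O).K c' := by
    refine kpr_eq _ _ _ fun k hk => ?_
    have hk := Nat.lt_succ_iff.1 hk
    have hs : sg n σ k = σ k := sg_eq (hσ k hk)
    have hsn := hσ k hk
    by_cases ha : (v (sg n σ k)).act = true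
    · have hE' : (C.pd T σ O).E c' k = swap (te Γ lv n σ k) (C.rl (La.us (lad T σ k)) (w (sg n σ k)) (c' k)) :=
        if_pos ha
      rw [hE']
      rw [hs] at ha
      obtain ⟨g1, g2⟩ := C.act _ hsn ha
      have hw : (v (σ k)).w S = 1 := by unfold Vst.w; rw [g1]
      have g3 : ((v (σ k)).col (c' (si (σ k)))) = ρ (fam (σ k)) (w (σ k)) (c' k) := by
        unfold Vst.col
        rw [ha, Bool.true_and, g2, h2 k hk]
      rw [hE k hk ⟨σ k, Nat.lt_succ_of_le hsn⟩ (C.cl ⟨_, hsn, rfl⟩ (w (σ k)) (c' k))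
        (C.cl ⟨_, hsn, rfl⟩ (w (σ k)) (c' k)) rfl g3.symm (by rw [hw, one_mul])]
      unfold evis te rl
      rw [g1]
      simp only [Option.isSome_none, Bool.false_eq_true, if_false, one_mul]
      have e1 : (⟨σ k, Nat.lt_succ_of_le hsn⟩ : Fin (n + 1)) = ⟨sg n σ k, Nat.lt_succ_of_le (sg_le n σ k)⟩ :=
        Fin.ext hs.symm
      have e2 : C.cl ⟨_, hsn, rfl⟩ (w (σ k)) (c' k) = C.cl (La.us (lad T σ k)) (w (sg n σ k)) (c' k) := by
        refine Subtype.ext ?_
        show ρ (fam (σ k)) (w (σ k)) (c' k) = ρ (lad T σ k).1 (w (sg n σ k)) (c' k)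
        rw [lad_eq T (by rw [hs]; exact ha), hs]
      rw [e1, e2]
    · have hE' : (C.pd T σ O).E c' k = (C.pd T σ O).π k := if_neg ha
      rw [hE']
      have ha : (v (σ k)).act = false := by rw [hs] at ha; simpa using ha
      have g2 := C.pas _ hsn ha
      have g3 : ((v (σ k)).col (c' (si (σ k)))) = ρ (fam (σ k)) (w (σ k)) false := by
        unfold Vst.col
        rw [g2]
      show E k = evis Γ lv n ⟨sg n σ k, Nat.lt_succ_of_le (sg_le n σ k)⟩ (v (sg n σ k)).tw.isSome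
        (C.cl ⟨_, sg_le n σ k, rfl⟩ (w (sg n σ k)) false) (C.cl ⟨_, sg_le n σ k, rfl⟩ (w (sg n σ k)) true)
      have e1 : evis Γ lv n ⟨sg n σ k, Nat.lt_succ_of_le (sg_le n σ k)⟩ (v (sg n σ k)).tw.isSome
          (C.cl ⟨_, sg_le n σ k, rfl⟩ (w (sg n σ k)) false) (C.cl ⟨_, sg_le n σ k, rfl⟩ (w (sg n σ k)) true) =
          evis Γ lv n ⟨σ k, Nat.lt_succ_of_le hsn⟩ (v (σ k)).tw.isSome
          (C.cl ⟨_, hsn, rfl⟩ (w (σ k)) false) (C.cl ⟨_, hsn, rfl⟩ (w (σ k)) true) := by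
        congr 1
        all_goals first
          | exact Fin.ext hs
          | rw [hs]
          | exact Subtype.ext (by show ρ (fam (sg n σ k)) (w (sg n σ k)) _ = ρ (fam (σ k)) (w (σ k)) _; rw [hs])
      rw [e1]
      rcases htw : (v (σ k)).tw.isSome
      · have hw : (v (σ k)).w S = 1 := by
          unfold Vst.w
          rcases h : (v (σ k)).tw with _ | s
          · rfl
          · rw [h] at htw
            cases htw
        rw [hE k hk ⟨σ k, Nat.lt_succ_of_le hsn⟩ (C.cl ⟨_, hsn, rfl⟩ (w (σ k)) false)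
          (C.cl ⟨_, hsn, rfl⟩ (w (σ k)) false) rfl g3.symm (by rw [hw, one_mul]), htw]
        rfl
      · rw [hE k hk ⟨σ k, Nat.lt_succ_of_le hsn⟩ (C.cl ⟨_, hsn, rfl⟩ (w (σ k)) false)
          (C.cl ⟨_, hsn, rfl⟩ (w (σ k)) true) rfl g3.symm (C.twi _ hsn htw).symm, htw]
  rw [hK]
  have e0 : (C.pd T σ O).e (si (rv n 0)) = Sum.inr ⟨n - 1, by omega⟩ := by
    show te Γ lv n σ (si (rv n 0)) = _
    rw [te_si h1 (rv_le (Nat.zero_le _))]
    exact congrArg Sum.inr (Fin.ext (by show rv n 0 = n - 1; rw [rv_lt (by omega), Nat.sub_zero]))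
  have en : (C.pd T σ O).e (si (rv n n)) = Sum.inr (Fin.last n) := by
    show te Γ lv n σ (si (rv n n)) = _
    rw [te_si h1 (rv_le le_rfl)]
    exact congrArg Sum.inr (Fin.ext (by show rv n n = n; exact rv_n))
  have h3 := hc' x
  rw [← e0, ← en]
  exact h3

end

end Cls

end Pool.Agent.Lib.MP_688fd0_co.SQ7.H41
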