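import Pool.Agent.Lib.MP_688fd0_co.SQ7.Iface
import Pool.Agent.Lib.MP_688fd0_co.SQ7.H71.Dart

/-!
Type C2, B1-FULL (helper41): existence of the permutations `O`, `K`, `E` of the statement COSET for a plan and a choice of bits.
-/

set_option autoImplicit false

namespace Pool.Agent.Lib.MP_688fd0_co.SQ7.H41

open Equiv

variable {G : Type} [Group G]

theorem thr_inj {n : ℕ} : Function.Injective (thr n) := by
  intro t t' h
  have h := congrArg Fin.val h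
  have h1 := t.2
  have h2 := t'.2
  unfold thr at h
  refine Fin.ext ?_
  split_ifs at h <;> (try dsimp only at h) <;> omega

/-- The permutation `O`. -/
theorem exists_O [Finite G] {Γ : Subgroup G} {lv : G → ℕ} {g : G} (n : ℕ)
    (hg : ∀ x ∈ Γ, lv x = 0 → x * g ∈ Γ ∧ lv (x * g) = 0) :
    ∃ O : Perm (Tok Γ lv n), (∀ x y : Col Γ lv, y.1 = x.1 * g → O (Sum.inl x) = Sum.inl y) ∧
      ∀ t, O (Sum.inr t) = Sum.inr (thr n t) := by
  have hf : Function.Injective fun x : Col Γ lv => (⟨x.1 * g, hg x.1 x.2.1 x.2.2⟩ : Col Γ lv) := by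
    intro x y h
    have h1 : x.1 * g = y.1 * g := congrArg Subtype.val h
    exact Subtype.ext (mul_right_cancel h1)
  have hb := (Finite.injective_iff_bijective).1 hf
  have ht := (Finite.injective_iff_bijective).1 (thr_inj (n := n))
  refine ⟨Equiv.sumCongr (Equiv.ofBijective _ hb) (Equiv.ofBijective _ ht), ?_, fun t => rfl⟩
  intro x y h
  exact congrArg Sum.inl (Subtype.ext h.symm)

/-- The permutation `O` is unique. -/
theorem O_uni {Γ : Subgroup G} {lv : G → ℕ} {g : G} {n : ℕ}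
    (hg : ∀ x ∈ Γ, lv x = 0 → x * g ∈ Γ ∧ lv (x * g) = 0) {O O' : Perm (Tok Γ lv n)}
    (h1 : ∀ x y : Col Γ lv, y.1 = x.1 * g → O (Sum.inl x) = Sum.inl y) (h2 : ∀ t, O (Sum.inr t) = Sum.inr (thr n t))
    (h1' : ∀ x y : Col Γ lv, y.1 = x.1 * g → O' (Sum.inl x) = Sum.inl y)
    (h2' : ∀ t, O' (Sum.inr t) = Sum.inr (thr n t)) : O = O' := by
  refine Equiv.ext fun x => ?_
  rcases x with x | t
  · rw [h1 x ⟨x.1 * g, hg x.1 x.2.1 x.2.2⟩ rfl, h1' x ⟨x.1 * g, hg x.1 x.2.1 x.2.2⟩ rfl]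
  · rw [h2, h2']

/-- The permutations `E`. -/
theorem exists_E [DecidableEq G] (S : Lets G) {Γ : Subgroup G} {lv : G → ℕ} (n : ℕ) (v : ℕ → Vst G) (σ : ℕ → ℕ)
    (c : ℕ → Bool) (ha : ∀ t ≤ n, (v t).col (c t) ∈ Γ ∧ lv ((v t).col (c t)) = 0)
    (hw : ∀ t ≤ n, (v t).w S * (v t).col (c t) ∈ Γ ∧ lv ((v t).w S * (v t).col (c t)) = 0) :
    ∃ E : ℕ → Perm (Tok Γ lv n), ∀ k ≤ n, ∀ (t : Fin (n + 1)) (a w : Col Γ lv), t.1 = σ k → a.1 = (v t.1).col (c t.1) →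
        w.1 = (v t.1).w S * a.1 → E k = evis Γ lv n t (v t.1).tw.isSome a w := by
  classical
  refine ⟨fun k => if h : σ k ≤ n then evis Γ lv n ⟨σ k, Nat.lt_succ_of_le h⟩ (v (σ k)).tw.isSome
    ⟨_, ha (σ k) h⟩ ⟨_, hw (σ k) h⟩ else 1, fun k _ t a w h1 h2 h3 => ?_⟩
  obtain ⟨t, ht⟩ := t
  obtain ⟨a, ha'⟩ := a
  obtain ⟨w, hw'⟩ := w
  have h1 : t = σ k := h1
  have h2 : a = (v t).col (c t) := h2
  have h3 : w = (v t).w S * a := h3
  subst h1 h2 h3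
  show (if h : σ k ≤ n then _ else _) = _
  rw [dif_pos (Nat.lt_succ_iff.1 ht)]

/-- THE TWO CYCLES: there are bits such that `O * K` has at most two cycles, through the exit of the last real visit and
through the exit of the virtual one. -/
def Two [DecidableEq G] (S : Lets G) (Γ : Subgroup G) (lv : G → ℕ) (g : G) (n : ℕ) (v : ℕ → Vst G) (σ : ℕ → ℕ) : Prop :=
  ∃ c : ℕ → Bool, ∀ (O K : Perm (Tok Γ lv n)) (E : ℕ → Perm (Tok Γ lv n)),
    (∀ x y : Col Γ lv, y.1 = x.1 * g → O (Sum.inl x) = Sum.inl y) →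
    (∀ t, O (Sum.inr t) = Sum.inr (thr n t)) →
    (∀ k ≤ n, ∀ (t : Fin (n + 1)) (a w : Col Γ lv), t.1 = σ k → a.1 = (v t.1).col (c t.1) →
      w.1 = (v t.1).w S * a.1 → E k = evis Γ lv n t (v t.1).tw.isSome a w) →
    K = kpr E (n + 1) →
    ∀ x : Tok Γ lv n, (O * K).SameCycle x (Sum.inr ⟨n - 1, by omega⟩) ∨ (O * K).SameCycle x (Sum.inr (Fin.last n))

/-- The columns of a plan. -/
theorem Pln.cols {S : Lets G} {Γ T : Subgroup G} {L : ℕ} {lv : G → ℕ} {A : Set G} {Nv : Subgroup G} {l : ℕ} {r : ℕ → Lt}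
    {lam : G} {f l₁ B W : ℕ} {g : G} {n : ℕ} {v : ℕ → Vst G} {d : ℕ → G} {σ : ℕ → ℕ}
    (hp : Pln S Γ T L lv A Nv l r lam f l₁ B W g n v d σ) :
    (∀ x ∈ Γ, lv x = 0 → x * g ∈ Γ ∧ lv (x * g) = 0) ∧
    (∀ t ≤ n, ∀ c, (v t).col c ∈ Γ ∧ lv ((v t).col c) = 0) ∧
    ∀ t ≤ n, ∀ c, (v t).w S * (v t).col c ∈ Γ ∧ lv ((v t).w S * (v t).col c) = 0 := by
  have hc := hp.circ
  have h1 : ∀ t ≤ n, ∀ c, (v t).a c ∈ Γ := by
    intro t ht c
    have h2 := hc.le (hp.col t ht c).1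
    have h3 := Γ.mul_mem (hp.yΓ t ht) (Γ.inv_mem h2)
    have e : (v t).y * (((v t).a c)⁻¹ * (v t).y)⁻¹ = (v t).a c := by group
    rwa [e] at h3
  have h4 : ∀ t ≤ n, (v t).w S ∈ Γ := by
    intro t ht
    unfold Vst.w
    rcases (v t).tw with _ | s
    · exact Γ.one_mem
    · have h5 := hc.two (S.al s.1)⁻¹ (S.al (!s.1))⁻¹ (fun h => hc.odd_al _ (by simpa using h))
        (fun h => hc.odd_al _ (by simpa using h))
      rw [inv_inv] at h5
      have h6 := Γ.mul_mem (Γ.mul_mem (hp.yΓ t ht) h5) (Γ.inv_mem (hp.yΓ t ht))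
      simpa [mul_assoc] using h6
  exact ⟨fun x hx h => ⟨Γ.mul_mem hx (hc.le hp.gT.1), hp.gT.2 x hx h⟩, fun t ht c => ⟨h1 t ht _, (hp.col t ht _).2⟩,
    fun t ht c => ⟨Γ.mul_mem (h4 t ht) (h1 t ht _), hp.colw t ht _⟩⟩

/-- Everything which COSET wants. -/
theorem Pln.exists_OE [Finite G] [DecidableEq G] {S : Lets G} {Γ T : Subgroup G} {L : ℕ} {lv : G → ℕ} {A : Set G}
    {Nv : Subgroup G} {l : ℕ} {r : ℕ → Lt} {lam : G} {f l₁ B W : ℕ} {g : G} {n : ℕ} {v : ℕ → Vst G} {d : ℕ → G}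
    {σ : ℕ → ℕ} (hp : Pln S Γ T L lv A Nv l r lam f l₁ B W g n v d σ) (c : ℕ → Bool) :
    ∃ (O : Perm (Tok Γ lv n)) (E : ℕ → Perm (Tok Γ lv n)),
      (∀ x y : Col Γ lv, y.1 = x.1 * g → O (Sum.inl x) = Sum.inl y) ∧ (∀ t, O (Sum.inr t) = Sum.inr (thr n t)) ∧
      ∀ k ≤ n, ∀ (t : Fin (n + 1)) (a w : Col Γ lv), t.1 = σ k → a.1 = (v t.1).col (c t.1) →
        w.1 = (v t.1).w S * a.1 → E k = evis Γ lv n t (v t.1).tw.isSome a w := by
  obtain ⟨h1, h2, h3⟩ := Pln.cols hp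
  obtain ⟨O, hO, hO'⟩ := exists_O (Γ := Γ) (lv := lv) (g := g) n h1
  obtain ⟨E, hE⟩ := exists_E S n v σ c (fun t ht => h2 t ht _) (fun t ht => h3 t ht _)
  exact ⟨O, E, hO, hO', hE⟩

open Pool.Agent.Lib.MP_688fd0_co.SQ4.H49 in
/-- The cycles of `O * K` are connected. -/
theorem con_cycle {D X : Type} [Finite D] {a b : X → X} (O K : Perm D) (real : D → X)
    (h : ∀ x, Con a b (real x) (real (O (K x)))) {x y : D} (hxy : (O * K).SameCycle x y) :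
    Con a b (real x) (real y) := by
  obtain ⟨i, -, hi⟩ := hxy.exists_pow_eq'
  have key : ∀ i : ℕ, Con a b (real x) (real (((O * K) ^ i) x)) := by
    intro i
    induction i with
    | zero => exact Relation.EqvGen.refl _
    | succ i ih =>
      rw [pow_succ', Perm.mul_apply]
      exact Relation.EqvGen.trans _ _ _ ih (h _)
  have := key i
  rwa [hi] at this

open Pool.Agent.Lib.MP_688fd0_co.OSF Pool.Agent.Lib.MP_688fd0_co.SQ4.H49 in
/-- **The end**: COSET, a plan and the two cycles give a list. -/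
theorem lst_of_two [Finite G] [DecidableEq G] {S : Lets G} {Γ T : Subgroup G} {L : ℕ} {lv : G → ℕ} {A : Set G}
    {Nv : Subgroup G} {l : ℕ} {r : ℕ → Lt} {lam : G} {f l₁ B W : ℕ} {g : G} {n : ℕ} {v : ℕ → Vst G} {d : ℕ → G}
    {σ : ℕ → ℕ} (hp : Pln S Γ T L lv A Nv l r lam f l₁ B W g n v d σ) (h2 : Two S Γ lv g n v σ)
    (hC : ∀ (c : ℕ → Bool) (O K : Perm (Tok Γ lv n)) (E : ℕ → Perm (Tok Γ lv n)),
      (∀ x y : Col Γ lv, y.1 = x.1 * g → O (Sum.inl x) = Sum.inl y) →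
      (∀ t, O (Sum.inr t) = Sum.inr (thr n t)) →
      (∀ k ≤ n, ∀ (t : Fin (n + 1)) (a w : Col Γ lv), t.1 = σ k → a.1 = (v t.1).col (c t.1) →
        w.1 = (v t.1).w S * a.1 → E k = evis Γ lv n t (v t.1).tw.isSome a w) →
      K = kpr E (n + 1) →
      ∃ (e : G × Bool → G × Bool) (real : Tok Γ lv n → G × Bool) (z : G), Inv e ∧
        (∀ x, x ≠ real (Sum.inr ⟨n - 1, by omega⟩) → x ≠ e (real (Sum.inr ⟨n - 1, by omega⟩)) → x.1⁻¹ * (e x).1 ∈ A) ∧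
        (real (Sum.inr ⟨n - 1, by omega⟩)).1⁻¹ * z ∈ A ∧ Con H71.fl e (z, true) (real (Sum.inr (Fin.last n))) ∧
        (∀ x, Con H71.fl e (real x) (real (O (K x)))) ∧ ∀ x, ∃ y, Con H71.fl e x (real y)) : Lst A := by
  obtain ⟨c, hc⟩ := h2
  obtain ⟨O, E, hO, hO', hE⟩ := Pln.exists_OE hp c
  obtain ⟨e, real, z, h1, h3, h4, h5, h6, h7⟩ := hC c O _ E hO hO' hE rfl
  refine H71.lst_of_darts h1 _ h3 z h4 fun x => ?_
  obtain ⟨y, hy⟩ := h7 x
  rcases hc O _ E hO hO' hE rfl y with h | h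
  · exact Or.inl (Relation.EqvGen.trans _ _ _ hy (con_cycle O _ real h6 h))
  · exact Or.inr (Relation.EqvGen.trans _ _ _ hy (Relation.EqvGen.trans _ _ _ (con_cycle O _ real h6 h)
      (Relation.EqvGen.symm _ _ h5)))

end Pool.Agent.Lib.MP_688fd0_co.SQ7.H41
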