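import Pool.Agent.Lib.MP_688fd0_co.SQ7.H79.BddW
import Pool.Agent.Lib.MP_688fd0_co.SQ7.H41.ArcsW
import Pool.Agent.Lib.MP_688fd0_co.SQ7.H41.TokO
import Pool.Agent.Lib.MP_688fd0_co.SQ7.H17.Cols

/-!
Type C2, B1-FULL, the case `N_V ≠ 1` (helper41): from a block trajectory (TRAJ), level data (WALK), words (WRD) and the columns
(COLS) to a plan with the two cycles.
-/

set_option autoImplicit false

namespace Pool.Agent.Lib.MP_688fd0_co.SQ7.H41

open Equiv Function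
open Pool.Agent.Lib.MP_688fd0_co.SQ7.H79 Pool.Agent.Lib.MP_688fd0_co.SQ7.H17

variable {G : Type} [Group G]

section

variable {S : Lets G} {Γ T Nv : Subgroup G} {L p : ℕ} {h : G → ZMod L}

/-- The level of a word. -/
theorem lev_pw (H : LvD S Γ T Nv L p h) (mem : ∀ x, S.sv x ∈ T) (r : ℕ → Lt) (l : ℕ) :
    H25.pw (fun n => S.sv (r n)) l ∈ T ∧ h (H25.pw (fun n => S.sv (r n)) l) = l := by
  induction l with
  | zero => exact ⟨T.one_mem, by rw [Nat.cast_zero]; exact H.one⟩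
  | succ l ih =>
    refine ⟨T.mul_mem ih.1 (mem _), ?_⟩
    show h (H25.pw (fun n => S.sv (r n)) l * S.sv (r l)) = _
    rw [H.mul _ ih.1 _ (mem _), ih.2, H.sv]
    push_cast
    rfl

/-- Words for the level function of a cut. -/
theorem wrd_lvf [NeZero L] (H : LvD S Γ T Nv L p h) (κ : G ⧸ T → ZMod L) (circ : Circ S Γ T L (lvf T h κ)) {l₁ D₁ : ℕ}
    (cen : ∀ x ∈ T, ∀ y ∈ Nv, x * y = y * x) (hinj : ∀ y ∈ Nv, h y = 0 → y = 1)
    (cl : ∀ k, D₁ ≤ k → l₁ ∣ k → ∃ w : List Lt, w.length = k ∧ (w.map S.sv).prod ∈ Nv)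
    (inv : ∀ s : Lt, ∃ w : List Lt, w.length ≤ D₁ ∧ l₁ ∣ w.length + 1 ∧ S.sv s * (w.map S.sv).prod ∈ Nv) :
    Wrd S Γ T L (lvf T h κ) Nv l₁ D₁ where
  circ := circ
  le := H.nle
  cen := cen
  one := fun x _ y hy hxy => by
    have h1 := H.lvf_mul κ x (H.nle hy)
    rw [hxy] at h1
    exact hinj y hy (left_eq_add.1 h1)
  cl := cl
  inv := inv

theorem lvf_one [NeZero L] (H : LvD S Γ T Nv L p h) (κ : G ⧸ T → ZMod L) {x : G} (hx : x ∈ T) (h0 : h x = 0) :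
    lvf T h κ x = lvf T h κ 1 := by
  have h1 := H.lvf_mul κ 1 hx
  rw [one_mul, h0, add_zero] at h1
  have h2 := (ZMod.natCast_eq_natCast_iff' _ _ L).1 h1
  rwa [Nat.mod_eq_of_lt (show lvf T h κ x < L from ZMod.val_lt _),
    Nat.mod_eq_of_lt (show lvf T h κ 1 < L from ZMod.val_lt _)] at h2

end

/-- **The case `N_V ≠ 1`.** -/
theorem arcsP [Finite G] [DecidableEq G] {eps : G →* ℤˣ} {D A₀ A₁ : Set G} {S : Lets G} {T Nv Nz : Subgroup G} {L p : ℕ}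
    [NeZero L] {h : G → ZMod L} (hn : ∀ x ∈ D ∪ A₀ ∪ A₁, eps x = -1) {T' N' N0' Nv' : Subgroup eps.ker}
    (P : Blk (vl (A₀ := A₀) hn) T' N' N0' Nv') (I : P.Iso act) (hR : 7 ≤ P.R)
    (hall : ∀ (s : Lb D A₀ A₁) (x : eps.ker), ∃ i < P.n, P.a i = s ∧ (P.p (i + 1))⁻¹ * x ∈ N' ∧
      (act s → i = 0 ∨ act (P.a (i - 1))))
    (hT' : ∀ x : eps.ker, x ∈ T' ↔ (x : G) ∈ T) (hNv' : ∀ x : eps.ker, x ∈ Nv' ↔ (x : G) ∈ Nv)
    (hN0' : ∀ x : eps.ker, x ∈ N0' → (x : G) ∈ Nv ⊔ Nz)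
    (H : LvD S eps.ker T Nv L p h) (ii : A₀ → Bool) (jj : A₁ → Bool) (hi : ∀ c, S.al (ii c) = c)
    (hj : ∀ b, S.be (jj b) = b) (ne : S.al false ≠ S.al true) (mem : ∀ x, S.sv x ∈ T) (le : T ≤ eps.ker)
    (odd_al : ∀ i, S.al i ∉ eps.ker) (odd_be : ∀ j, S.be j ∉ eps.ker)
    (two : ∀ x y : G, x ∉ eps.ker → y ∉ eps.ker → x⁻¹ * y ∈ eps.ker)
    {A : Set G} (hDA : D ⊆ A) (nD : D.Nonempty) (n1 : A₁.Nonempty)
    (al : ∀ i, S.al i ∈ A) (be : ∀ j, S.be j ∈ A) (sym : ∀ x ∈ A, x⁻¹ ∈ A)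
    {l : ℕ} {r : ℕ → Lt} {lam : G} {f l₁ D₁ B₀ : ℕ} (W : ℕ) (run : Run S T l r lam) (fpos : 0 < f)
    (hf : l.factorial ∣ f) (lamN : lam ^ f ∈ Nv) (hl : l₁ ∣ l * f)
    (cen : ∀ x ∈ T, ∀ y ∈ Nv, x * y = y * x) (hinj : ∀ y ∈ Nv, h y = 0 → y = 1)
    (cl : ∀ k, D₁ ≤ k → l₁ ∣ k → ∃ w : List Lt, w.length = k ∧ (w.map S.sv).prod ∈ Nv)
    (inv : ∀ s : Lt, ∃ w : List Lt, w.length ≤ D₁ ∧ l₁ ∣ w.length + 1 ∧ S.sv s * (w.map S.sv).prod ∈ Nv)
    (gen : T = Subgroup.closure (Set.range S.sv)) (hl₁ : 0 < l₁) (hz : ∀ x ∈ Nz, x ∈ T ∧ h x = 0) (hz1 : Nz ≠ ⊥)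
    {g₀ : G} (hg₀ : Subgroup.zpowers g₀ = Nz)
    (hw₀ : ∃ wd : List Lt, wd.length ≤ B₀ ∧ wd.length ≡ L [MOD l₁] ∧ ((wd.map S.sv).prod)⁻¹ * g₀ ∈ Nv)
    (hcop : (Nat.card Nv).Coprime l₁)
    (hP : ∀ q, q.Prime → q ∣ Nat.card Nz → 1 + 4 * l₁ ^ 2 * ((P.R + 1) * P.n + 1) + 2 * l₁ < q)
    (hL : 1000 * ((2 * P.R + 1) * P.n ^ 2 + 1) * (l * f) *
      (4 ^ (10 * ((2 * P.R + 1) * P.n ^ 2) + 1) * (30 + 5 * W)) ≤ p) :
    ∃ (κ : G ⧸ T → ZMod L) (g : G) (n : ℕ) (v : ℕ → Vst G) (d : ℕ → G) (σ : ℕ → ℕ),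
      Wrd S eps.ker T L (lvf T h κ) Nv l₁ D₁ ∧
      Pln S eps.ker T L (lvf T h κ) A Nv l r lam f l₁ (colB l₁ D₁ B₀ ((P.R + 1) * P.n)) W g n v d σ ∧
      Two S eps.ker (lvf T h κ) g n v σ := by
  classical
  -- the walk
  obtain ⟨ha1, ha2⟩ := I.fin_act
  have hfτ := I.fin_lt
  have hlam : h (lam ^ f) = ((l * f : ℕ) : ZMod L) := by
    obtain ⟨g1, g2⟩ := lev_pw H mem r l
    rw [run.sea] at g1 g2
    rw [H.pow g1, g2]
    push_cast
    ring
  obtain ⟨κ, m, σ, wk, hpos⟩ := exists_walk hn P hT' H ii jj hi hj ne mem le odd_al odd_be two hDA lamN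
    (Nat.mul_pos run.pos fpos) hlam W (n := P.fin + 1) (Nat.succ_pos _) hfτ (by rw [Nat.add_sub_cancel]; exact ha1) hL
  set z : G := lam ^ f with hzd
  set n : ℕ := P.fin + 1 with hnd
  set lv : G → ℕ := lvf T h κ with hlv
  set v : ℕ → Vst G := vis S z ii jj P.lab m n with hv
  set y : ℕ → G := ypos S z ii jj P.lab m with hy
  set tw : ℕ → Option Lt := twt ii jj P.lab with htw
  have hvy : ∀ t, (v t).y = y t := fun _ => rfl
  have hvtw : ∀ t, (v t).tw = tw t := fun _ => rfl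
  have hvact : ∀ t, (v t).act = true ↔ P.va act t := fun t => vis_act S z ii jj P.lab m n t
  have hNvn : Nv'.Normal := by
    refine ⟨fun x hx g => ?_⟩
    rw [hNv'] at hx ⊢
    have := H.nrm (g⁻¹ : eps.ker) (g⁻¹ : eps.ker).2 x hx
    simpa using this
  have hthr : Thr n (P.va act) (P.fm act) := I.thr hNvn hR
  have hW : Wrd S eps.ker T L lv Nv l₁ D₁ := wrd_lvf H κ wk.circ cen hinj cl inv
  -- positions
  have hyT : ∀ t, ((P.w t : eps.ker) : G)⁻¹ * y t ∈ T := by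
    intro t
    have h1 := T.mul_mem (H.nle (hpos t)) (T.inv_mem (tws_mem mem (tw t)))
    have e : ((P.w t : eps.ker) : G)⁻¹ * (ypos S z ii jj P.lab m t * tws S (twt ii jj P.lab t)) * (tws S (tw t))⁻¹ =
        ((P.w t : eps.ker) : G)⁻¹ * y t := by
      rw [hy, htw]
      group
    rwa [e] at h1
  have hfam : ∀ t ≤ n, ∀ t' ≤ n, P.fm act t = P.fm act t' → (y t)⁻¹ * y t' ∈ Nv ∧ tw t = tw t' := by
    intro t _ t' _ e
    have h1 := (hNv' _).1 (Blk.fm_class e)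
    have h2 : tw t = tw t' := by
      by_cases ha : P.va act t
      · have ha' := (Blk.fm_va e).1 ha
        rw [← hvtw t, ← hvtw t', vis_tw S z ii jj P.lab m n t ((hvact t).2 ha),
          vis_tw S z ii jj P.lab m n t' ((hvact t').2 ha')]
      · have ha' : ¬ P.va act t' := fun h2 => ha ((Blk.fm_va e).2 h2)
        obtain ⟨h3, -⟩ := Blk.fm_lab e ha
        have h0 : ∀ t, ¬ P.va act t → 0 < t := fun t h => by
          rcases Nat.eq_zero_or_pos t with h' | h'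
          · exact absurd (Or.inl h') h
          · exact h'
        obtain ⟨u, rfl⟩ : ∃ u, t = u + 1 := ⟨t - 1, by have := h0 t ha; omega⟩
        obtain ⟨u', rfl⟩ : ∃ u', t' = u' + 1 := ⟨t' - 1, by have := h0 t' ha'; omega⟩
        rw [Nat.add_sub_cancel, Nat.add_sub_cancel] at h3
        show ltw ii jj (P.lab u) = ltw ii jj (P.lab u')
        rw [h3]
    refine ⟨?_, h2⟩
    have h3 := hpos t
    have h4 := hpos t'
    have h5 : (((P.w t)⁻¹ * P.w t' : eps.ker) : G) ∈ Nv := h1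
    rw [Subgroup.coe_mul, Subgroup.coe_inv] at h5
    have h6 := Nv.mul_mem (Nv.mul_mem (Nv.inv_mem h3) h5) h4
    have h7 := H.nrm (tws S (tw t))⁻¹ (le (T.inv_mem (tws_mem mem (tw t)))) _ h6
    have e1 : (tws S (tw t))⁻¹⁻¹ * ((((P.w t : eps.ker) : G)⁻¹ * (y t * tws S (tw t)))⁻¹ *
        ((((P.w t : eps.ker) : G)⁻¹ * ((P.w t' : eps.ker) : G))) *
        (((P.w t' : eps.ker) : G)⁻¹ * (y t' * tws S (tw t')))) * (tws S (tw t))⁻¹ =
        (y t)⁻¹ * y t' := by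
      rw [← h2]
      group
    rwa [e1] at h7
  -- the columns
  have hF : ∀ x ∈ eps.ker, ((Finset.range (n + 1)).filter (fun t => x⁻¹ * y t ∈ T)).card ≤ (P.R + 1) * P.n := by
    intro x hx
    refine le_trans (Finset.card_le_card ?_) (P.few (⟨x, hx⟩ : eps.ker))
    intro t ht
    rw [Finset.mem_filter, Finset.mem_range] at ht ⊢
    refine ⟨by omega, ?_⟩
    rw [hT']
    have h1 := T.mul_mem (hyT t) (T.inv_mem ht.2)
    have e : ((P.w t : eps.ker) : G)⁻¹ * y t * (x⁻¹ * y t)⁻¹ = (((P.w t)⁻¹ * ⟨x, hx⟩ : eps.ker) : G) := by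
      rw [Subgroup.coe_mul, Subgroup.coe_inv]
      group
    rwa [e] at h1
  obtain ⟨g, l', w, ρ, C⟩ := exists_cols hW gen hl₁ (fun x hx => ⟨(hz x hx).1, lvf_one H κ (hz x hx).1 (hz x hx).2⟩) hz1
    hg₀ hw₀ hcop (nF := (P.R + 1) * P.n) hP (n := n) (y := y) tw (P.fm act) (fun t ht => wk.yΓ t ht) hfam hF
  set a : ℕ → Bool → G := fun t c => ρ (P.fm act t) (w t) ((v t).act && c) with ha
  have ha' : ∀ t ≤ n, ∀ c, ∃ b, a t c = ρ (P.fm act t) (w t) b ∧ (b = true → tw t = none) := by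
    intro t _ c
    refine ⟨_, rfl, fun hb => ?_⟩
    rw [Bool.and_eq_true] at hb
    exact vis_tw S z ii jj P.lab m n t hb.1
  have hwS : ∀ t, (v t).w S = twf S (y t) (tw t) := fun t => Vst.w_eq S (v t)
  have hcolw : ∀ t ≤ n, ∀ c, lv ((v t).w S * a t c) = 0 := by
    intro t ht c
    rw [hwS]
    rcases h1 : tw t with _ | s
    · show lv (1 * a t c) = 0
      rw [one_mul]
      exact C.r0 t ht _ _
    · rw [← h1]
      have h2 : (v t).act = false := by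
        rcases h3 : (v t).act
        · rfl
        · have := vis_tw S z ii jj P.lab m n t h3
          have h4 : tw t = none := this
          rw [h4] at h1
          cases h1
      have h3 : a t c = ρ (P.fm act t) (w t) false := by rw [ha]; simp only [h2, Bool.false_and]
      rw [h3, C.twr t ht (by rw [h1]; exact Option.some_ne_none s)]
      exact C.r0 t ht _ _
  have pl : Pln S eps.ker T L lv A Nv l r lam f l₁ (colB l₁ D₁ B₀ ((P.R + 1) * P.n)) W g n (setA v a)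
      (fun t => ld (P.lab t)) σ := by
    refine wk.pln run fpos hf lamN hl al be sym a (fun t ht c => ?_) hcolw (fun t ht c => ?_) C.gT C.gword
    · exact ⟨C.rT t ht _ _, C.r0 t ht _ _⟩
    · obtain ⟨b, h1, h2⟩ := ha' t ht c
      rw [h1]
      exact C.word t ht b h2
  -- two cycles
  have hcls : Cls S eps.ker lv n (setA v a) g l' (P.fm act) w ρ := by
    refine ⟨C.lpos, C.wlt, fun t ht i b => ⟨?_, C.r0 t ht i b⟩, C.rsucc,
      fun t ht t' ht' i hi i' hi' b b' h => C.inj t ht t' ht' i i' hi hi' b b' h, ?_, ?_, ?_, ?_, ?_⟩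
    · have h1 := eps.ker.mul_mem (wk.yΓ t ht) (eps.ker.inv_mem (le (C.rT t ht i b)))
      have e : (v t).y * ((ρ (P.fm act t) i b)⁻¹ * y t)⁻¹ = ρ (P.fm act t) i b := by
        rw [hvy]
        group
      rwa [e] at h1
    · intro t ht h1
      have h1 : (v t).act = true := h1
      refine ⟨vis_tw S z ii jj P.lab m n t h1, fun c => ?_⟩
      show ρ (P.fm act t) (w t) ((v t).act && c) = _
      rw [h1, Bool.true_and]
    · intro t ht h1 c
      have h1 : (v t).act = false := h1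
      show ρ (P.fm act t) (w t) ((v t).act && c) = _
      rw [h1, Bool.false_and]
    · intro t ht h1
      show (v t).w S * _ = _
      rw [hwS]
      exact C.twr t ht (fun h2 => by
        have h1 : (tw t).isSome = true := h1
        rw [h2] at h1
        cases h1) _
    · intro t ht t' ht' h1
      show (tw t).isSome = (tw t').isSome
      rw [(hfam t ht t' ht' h1).2]
    · intro x hx h1
      obtain ⟨d₀, hd₀⟩ := nD
      obtain ⟨b₀, hb₀⟩ := n1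
      obtain ⟨i, hi, h2, h3, -⟩ := hall (Sum.inl (⟨d₀, hd₀⟩, ⟨b₀, hb₀⟩, true)) ⟨x, hx⟩
      obtain ⟨t, ht, h0, h4, h5⟩ := I.hit_fin hNvn hi h3
      have htn : t ≤ n := by omega
      refine ⟨t, htn, C.cov x hx h1 t htn ?_⟩
      have h6 : tw t = none := by
        obtain ⟨u, rfl⟩ : ∃ u, t = u + 1 := ⟨t - 1, by omega⟩
        rw [Nat.add_sub_cancel] at h4
        show ltw ii jj (P.lab u) = none
        rw [h4, h2]
        rfl
      have h7 := hpos t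
      rw [h6] at h7
      have h9 := (Nv ⊔ Nz).mul_mem ((Nv ⊔ Nz).inv_mem (hN0' _ h5)) (Subgroup.mem_sup_left h7)
      have e : ((((P.w t)⁻¹ * ⟨x, hx⟩ : eps.ker) : G))⁻¹ *
          (((P.w t : eps.ker) : G)⁻¹ * (y t * tws S none)) = x⁻¹ * y t := by
        show ((((P.w t : eps.ker) : G)⁻¹ * x))⁻¹ * (((P.w t : eps.ker) : G)⁻¹ * (y t * 1)) = x⁻¹ * y t
        group
      rwa [e] at h9
  have hT : Thr n (fun t => ((setA v a) t).act = true) (P.fm act) := by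
    have e : (fun t => ((setA v a) t).act = true) = P.va act := funext fun t => propext (hvact t)
    rw [e]
    exact hthr
  obtain ⟨hg1, -, -⟩ := Pln.cols pl
  refine ⟨κ, g, n, setA v a, _, σ, hW, pl, ?_⟩
  obtain ⟨O, hO, hO'⟩ := exists_O (Γ := eps.ker) (lv := lv) (g := g) n hg1
  obtain ⟨c, hc⟩ := hcls.arcsW (O := O) hT pl.σlt pl.σinj hO hO' hg1
  refine ⟨c, fun O₁ K E hO₁ hO₁' hE hK x => ?_⟩
  obtain rfl : O₁ = O := O_uni hg1 hO₁ hO₁' hO hO'
  rw [hK]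
  exact hc E hE x

end Pool.Agent.Lib.MP_688fd0_co.SQ7.H41
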