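import Pool.Agent.Lib.MP_688fd0_co.SQ7.IfaceG
import Pool.Agent.Lib.MP_688fd0_co.SQ7.H71.Lvd
import Pool.Agent.Lib.MP_688fd0_co.SQ7.H79.Tra

/-!
Type C2, B1-FULL (helper41): the block trajectory of the group data.
-/

set_option autoImplicit false

namespace Pool.Agent.Lib.MP_688fd0_co.SQ7.H41

open Pool.Agent.Lib.MP_688fd0_co.SQ7.H79

variable {G : Type} [Group G]

section

variable {N C : Subgroup G} {eps : G →* ℤˣ} {k P : ℕ} {A : Set G} {S : Lets G} {D : Set G} {T V Nv : Subgroup G}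
    {L δ : ℕ} {lev : G → ZMod L} (h : Dat N C eps k P A S D T V Nv L δ lev)

include h

theorem hnD : ∀ x ∈ D ∪ Set.range S.al ∪ Set.range S.be, eps x = -1 := by
  rintro x ((hx | ⟨i, rfl⟩) | ⟨i, rfl⟩)
  · exact h.neg x (h.DA hx)
  · exact h.neg _ (h.al i)
  · exact h.neg _ (h.be i)

/-- The block trajectory of the group data. -/
theorem exists_trad [Finite G]
    (hp : ∀ p ∈ (Nat.card N).primeFactors, (Nat.card N).primeFactors.card + 1 < p) (R : ℕ) (hR : 2 ≤ R) :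
    ∃ (T' N' N0' Nv' : Subgroup eps.ker) (Q : Blk (vl (A₀ := Set.range S.al) (hnD h)) T' N' N0' Nv'),
      (∀ x : eps.ker, x ∈ T' ↔ (x : G) ∈ T) ∧ (∀ x : eps.ker, x ∈ Nv' ↔ (x : G) ∈ Nv) ∧
      (∀ x : eps.ker, x ∈ N0' → (x : G) ∈ Nv ⊔ (N ⊓ V)) ∧ Q.R = R ∧ Q.Iso act ∧
      Q.n ≤ 3 * ((((Nat.card N).primeFactors.card + 2) ^ 2 * (3 * k + 3) + 1) *
        (k * Nat.card (Cl D (Set.range S.al) (Set.range S.be)))) ∧
      ∀ (s : Lb D (Set.range S.al) (Set.range S.be)) (x : eps.ker), ∃ i < Q.n, Q.a i = s ∧ (Q.p (i + 1))⁻¹ * x ∈ N' ∧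
        (act s → i = 0 ∨ act (Q.a (i - 1))) := by
  have hN : ∀ x ∈ N, eps x = 1 := fun x hx => h.gn.eN x hx
  set G₀ : Subgroup G := Subgroup.closure (Set.range S.al ∪ Set.range S.be) with hG₀
  obtain ⟨Q, h1, h2, h3, h4⟩ := exists_tra h.gn.toGNE hp (hnD h) h.Dinv
    (by
      rintro x ⟨i, rfl⟩
      obtain ⟨i', hi'⟩ := h.al_inv i
      exact ⟨i', hi'.symm⟩)
    (by
      rintro x ⟨i, rfl⟩
      rcases i
      · exact ⟨true, h.be_inv⟩
      · exact ⟨false, by rw [h.be_inv, inv_inv]⟩)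
    (by rw [Set.union_assoc]; exact h.gen) h.Dn (Set.range_nonempty _) (Set.range_nonempty _) G₀ h.DG
    (Set.subset_union_left.trans Subgroup.subset_closure) (Set.subset_union_right.trans Subgroup.subset_closure) Nv
    (fun x hx => ⟨h.NvN hx, ((h.hT x).1 (h.NvT hx)).1⟩)
    (fun x hx hc => h.Nv_C x hx.1 ((h.hT x).2 ⟨hx.2, hN x hx.1⟩) hc) R hR
  refine ⟨_, _, _, _, Q, fun x => ?_, fun x => Subgroup.mem_subgroupOf, fun x hx => ?_, h1, h2, h3, h4⟩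
  · rw [Subgroup.mem_subgroupOf, h.hT]
    exact ⟨fun h5 => ⟨h5, x.2⟩, fun h5 => h5.1⟩
  · rw [Subgroup.mem_subgroupOf] at hx
    obtain ⟨y, hy, z, hz, e⟩ := h.NT x hx.1 ((h.hT _).2 ⟨hx.2, x.2⟩)
    rw [e]
    exact Subgroup.mul_mem_sup hy hz

end

end Pool.Agent.Lib.MP_688fd0_co.SQ7.H41
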