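import Pool.Agent.Lib.MP_688fd0_co.SQ7.H71.Comb
import Pool.Agent.Lib.MP_688fd0_co.SQ7.H71.Lvd
import Pool.Agent.Lib.MP_688fd0_co.SQ7.H25.Cst
import Pool.Agent.Lib.MP_688fd0_co.SQ7.H41.ArcsP
import Pool.Agent.Lib.MP_688fd0_co.SQ7.H41.Trd
import Pool.Agent.Lib.MP_688fd0_co.SQ7.H79.Case1

/-!
Type C2, B1-FULL (helper41): the case `N ⊓ V ≠ 1` of the final assembly (`H71.CaseS false`).
-/

set_option autoImplicit false

namespace Pool.Agent.Lib.MP_688fd0_co.SQ7.H41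

open Pool.Agent.Lib.MP_688fd0_co.OSF
open Pool.Agent.Lib.MP_688fd0_co.SQ7.H79 Pool.Agent.Lib.MP_688fd0_co.SQ7.H17

/-- **The case `N ⊓ V ≠ 1`.** -/
theorem case2_of (num : ∀ e : ℕ, ∃ c0 : ℕ, NumS e c0)
    (card_Cl : ∀ {G : Type} [Group G] [Finite G] {D A : Set G} {S : Lets G} {Om : ℕ}, D ⊆ A → A.ncard ≤ 2 * Om + 10 →
      Nat.card (Cl D (Set.range S.al) (Set.range S.be)) ≤ 2 * (2 * Om + 10) + 5 * (2 * (2 * Om + 10)) ^ 3) :
    H71.CaseS false := by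
  intro e
  obtain ⟨c₀, hnum⟩ := num e
  obtain ⟨W₀, hW₀, hC⟩ := H25.cosetS
  refine ⟨c₀, ?_⟩
  intro G _ _ N C eps k P A S D T V Nv L δ lev l₁ B D₁ l r lam g₀ f h o hM hA hP hc
  classical
  have : NeZero L := ⟨h.Lpos.ne'⟩
  have hne : Nat.card (N ⊓ V : Subgroup G) ≠ 1 := fun h1 => absurd (hc.1 h1) (by decide)
  have hk : 0 < k := by
    rw [← h.gn.idx]
    exact Nat.pos_of_ne_zero N.index_ne_zero_of_finite
  have hPN : P ∣ Nat.card N := h.gn.dvd
  have hPp : P.Prime := h.gn.prime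
  have hNG : Nat.card N ∣ Nat.card G := Subgroup.card_subgroup_dvd_card N
  have hOm : 0 < (Nat.card G).primeFactorsList.length := by
    refine List.length_pos_of_mem (a := P) ?_
    rw [Nat.mem_primeFactorsList Nat.card_pos.ne']
    exact ⟨hPp, hPN.trans hNG⟩
  have hpf : (Nat.card N).primeFactors.card ≤ (Nat.card G).primeFactorsList.length := by
    refine (Finset.card_le_card (Nat.primeFactors_mono hNG Nat.card_pos.ne')).trans ?_
    rw [Nat.primeFactors]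
    exact List.toFinset_card_le _
  have hcl := card_Cl (S := S) h.DA hA
  set Om := (Nat.card G).primeFactorsList.length with hOmd
  -- the trajectory
  obtain ⟨T', N', N0', Nv', Q, g1, g2, g3, g4, g5, g6, g7⟩ := exists_trad h (fun p hp => by
    have h1 := h.gn.marg p hp
    have h2 : (Nat.card G).primeFactorsList.length + 2 ≤ ((Nat.card G).primeFactorsList.length + 2) ^ 10 :=
      Nat.le_self_pow (by norm_num) _
    omega) 8 (by norm_num)
  have hn : Q.n ≤ 3 * (((Om + 2) ^ 2 * (3 * k + 3) + 1) * (k * (2 * (2 * Om + 10) + 5 * (2 * (2 * Om + 10)) ^ 3))) := by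
    refine g6.trans (Nat.mul_le_mul_left _ (Nat.mul_le_mul ?_ (Nat.mul_le_mul_left _ hcl)))
    exact Nat.succ_le_succ (Nat.mul_le_mul_right _ (Nat.pow_le_pow_left (by omega) _))
  obtain ⟨n1, n2⟩ := hnum k Om P Q.n Q.R l₁ B D₁ l f ((Q.R + 1) * Q.n) (colB l₁ D₁ B ((Q.R + 1) * Q.n)) (by omega) hP hn
    (by omega) (by nlinarith [Nat.zero_le (Q.R * Q.n)]) o.l₁le o.le o.fpos (Nat.le_add_right _ _)
  have hii : ∀ c : Set.range S.al, ∃ i, S.al i = c := fun c => c.2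
  have hjj : ∀ c : Set.range S.be, ∃ i, S.be i = c := fun c => c.2
  choose ii hi using hii
  choose jj hj using hjj
  obtain ⟨κ, g, n, v, d, σ, hw, pl, two⟩ := arcsP (A := A) (Nz := N ⊓ V) (hnD h) Q g5 (by omega) g7 g1 g2 g3 h.lvd ii jj hi hj
    h.ne h.sv_mem h.Tle h.odd_al h.odd_be (fun x y hx hy => Dat.two hx hy) h.DA h.Dn (Set.range_nonempty _) h.al h.be h.symA
    ((l₁ + colB l₁ D₁ B ((Q.R + 1) * Q.n) + D₁ + l + 10) ^ 20) o.run o.fpos o.hf o.lamN o.hl h.Nv_cen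
    (fun y hy h1 => h.NvV y hy ((h.lev_V y (h.NvT hy)).1 h1)) o.cl o.inv h.Tcl o.l₁pos
    (fun x hx => ⟨h.VT hx.2, (h.lev_V x (h.VT hx.2)).2 hx.2⟩)
    (fun h1 => hne (by rw [h1]; exact Subgroup.card_bot)) o.gen o.gword o.cop
    (fun q hq hqN => by
      refine (n1 q (hM q ?_)).2.1
      rw [Nat.mem_primeFactors]
      exact ⟨hq, hqN.trans (Subgroup.card_dvd_of_le inf_le_left), Nat.card_pos.ne'⟩) n2
  exact lst_of_two pl two (hC G S eps.ker T L (lvf T lev κ) A Nv l r lam f l₁ _ D₁ _ g n v d σ hw pl (hW₀ _ _ _ _))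

end Pool.Agent.Lib.MP_688fd0_co.SQ7.H41
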