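import Pool.Agent.Lib.MP_688fd0_co.SQ6.Iface
import Pool.Agent.Lib.MP_688fd0_co.SQ4.H87.Dstr

/-!
SQ7, row LAM: `D`, `E` symmetric sets of letters with `eps = -1`, labels `d c⁻¹` (`d ∈ D`, `c ∈ E`). A word in which all
labels occur equally often and whose value `λ` lies in `N` and is central in `ker eps` (for instance an Eulerian circuit of
`ker eps / N`) has a value of order prime to `|C|`.

Let `q ∣ |C|` be a prime which divides the order of `λ`, and `μ` a power of `λ` of order `q`: `μ ∈ C` is central in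
`ker eps`, so all elements with `eps = -1` invert `μ` (then `μ = 1` by the property of `C`) or `μ` is central in `G`. In the
second case there is a normal complement `K` of `⟨μ⟩`, `G / K` is abelian, the images of the `d ∈ D` have the product `1`
(and the same for `E`), so `λ ∈ K`, a contradiction.
-/

set_option autoImplicit false

namespace Pool.Agent.Lib.MP_688fd0_co.SQ7.H41

open Pool.Agent.Lib.MP_688fd0_co.OSF Pool.Agent.Lib.MP_688fd0_co.SQ2 Pool.Agent.Lib.MP_688fd0_co.SQ2.H41

/-- In an Eulerian circuit of the Cayley digraph of `K` every label occurs `|K|` times. -/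
theorem count_of_euler {K Λ : Type*} [Group K] [Finite K] [Finite Λ] [DecidableEq Λ] (q : Λ → K) (l : List Λ)
    (hlen : l.length = Nat.card K * Nat.card Λ)
    (hcov : ∀ (x : K) (s : Λ), ∃ i, ∃ h : i < l.length, l[i] = s ∧ ((l.take i).map q).prod = x) (s : Λ) :
    l.count s = Nat.card K := by
  classical
  have := Fintype.ofFinite K
  have := Fintype.ofFinite Λ
  set φ : Fin l.length → K × Λ := fun i => (((l.take i).map q).prod, l[i]) with hφ
  have hbij : Function.Bijective φ := by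
    rw [Fintype.bijective_iff_surjective_and_card]
    refine ⟨fun a => ?_, ?_⟩
    · obtain ⟨i, hi, h1, h2⟩ := hcov a.1 a.2
      exact ⟨⟨i, hi⟩, Prod.ext h2 h1⟩
    · rw [Fintype.card_fin, hlen, Fintype.card_prod, Nat.card_eq_fintype_card, Nat.card_eq_fintype_card]
  obtain ⟨v, hv, hvi⟩ : ∃ v : List.Vector Λ l.length, v.toList = l ∧ ∀ i, v.get i = l[i] :=
    ⟨⟨l, rfl⟩, rfl, fun _ => rfl⟩
  have h1 := Fin.card_filter_univ_eq_vector_get_eq_count s v
  have h2 : (Finset.univ.filter fun i : Fin l.length => v.get i = s).card =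
      (Finset.univ.filter fun a : K × Λ => a.2 = s).card := by
    refine Finset.card_bij (fun i _ => φ i) ?_ ?_ ?_
    · intro i hi
      rw [Finset.mem_filter] at hi ⊢
      exact ⟨Finset.mem_univ _, (hvi i).symm.trans hi.2⟩
    · intro i _ j _ h
      exact hbij.1 h
    · intro a ha
      rw [Finset.mem_filter] at ha
      obtain ⟨i, hi⟩ := hbij.2 a
      refine ⟨i, Finset.mem_filter.2 ⟨Finset.mem_univ _, ?_⟩, hi⟩
      have h3 := congrArg Prod.snd hi
      exact (hvi i).trans (h3.trans ha.2)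
  have h3 : (Finset.univ.filter fun a : K × Λ => a.2 = s).card = Nat.card K := by
    rw [Nat.card_eq_fintype_card, ← Finset.card_univ]
    refine Finset.card_bij (fun a _ => a.1) ?_ ?_ ?_
    · intro a _
      exact Finset.mem_univ _
    · intro a ha b hb h
      rw [Finset.mem_filter] at ha hb
      exact Prod.ext h (ha.2.trans hb.2.symm)
    · intro x _
      exact ⟨(x, s), Finset.mem_filter.2 ⟨Finset.mem_univ _, rfl⟩, rfl⟩
  rw [hv] at h1
  rw [← h1, h2, h3]

/-- A central element of prime order `q`, `q ^ 2 ∤ |G|`: the normal complement. -/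
theorem exists_compl {G : Type*} [Group G] [Finite G] {μ : G} {q : ℕ} (hq : q.Prime) (hμ : orderOf μ = q)
    (hc : ∀ g, μ * g = g * μ) (hsq : ¬ q ^ 2 ∣ Nat.card G) :
    ∃ K : Subgroup G, (Nat.card K).Coprime q ∧ (∀ x, (orderOf x).Coprime q → x ∈ K) ∧
      ∀ x y : G, x * y * x⁻¹ * y⁻¹ ∈ K := by
  have hYc : Nat.card (Subgroup.zpowers μ) = q := by rw [Nat.card_zpowers, hμ]
  have hcen : ∀ y ∈ Subgroup.zpowers μ, ∀ g, y * g = g * y := by
    intro y hy g
    obtain ⟨i, rfl⟩ := Subgroup.mem_zpowers_iff.1 hy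
    have h1 : Commute μ g := hc g
    exact h1.zpow_left i
  have hidx : (Nat.card (Subgroup.zpowers μ)).Coprime (Subgroup.zpowers μ).index := by
    rw [hYc]
    refine (Nat.Prime.coprime_iff_not_dvd hq).2 fun h1 => hsq ?_
    have h2 := (Subgroup.zpowers μ).card_mul_index
    rw [← h2, hYc, pow_two]
    exact Nat.mul_dvd_mul_left _ h1
  obtain ⟨K, h1, h2, h3⟩ := SQ4.H87.compl (Subgroup.zpowers μ) hcen hidx
  rw [hYc] at h1 h2
  exact ⟨K, h1, h2, h3⟩

/-- The letters of a symmetric set have the product `1` in an abelian group if involutions go to `1`. -/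
theorem prod_sym {G X : Type*} [Group G] [CommGroup X] (D : Set G) [Fintype D] (hD : ∀ x ∈ D, x⁻¹ ∈ D) (n : G →* X)
    (h2 : ∀ x ∈ D, x⁻¹ = x → n x = 1) : ∏ d : D, n d = 1 := by
  classical
  refine Finset.prod_involution (fun d _ => ⟨(d : G)⁻¹, hD _ d.2⟩) ?_ ?_ ?_ ?_
  · intro d _
    show n d * n (d : G)⁻¹ = 1
    rw [map_inv, mul_inv_cancel]
  · intro d _ hd he
    exact hd (h2 d d.2 (congrArg Subtype.val he))
  · intro d _
    exact Finset.mem_univ _
  · intro d _
    exact Subtype.ext (inv_inv _)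

/-- **LAM.** -/
theorem lam {G : Type*} [Group G] [Finite G] {N C : Subgroup G} {eps : G →* ℤˣ} {k P : ℕ} (h : GNE N C eps k P)
    (D E : Set G) (hD : ∀ x ∈ D, x⁻¹ ∈ D) (hE : ∀ x ∈ E, x⁻¹ ∈ E) (hDe : ∀ x ∈ D, eps x = -1)
    [DecidableEq (D × E)] (l : List (D × E)) (M : ℕ) (hl : ∀ s, l.count s = M)
    (hN : (l.map fun s => (s.1 : G) * (s.2 : G)⁻¹).prod ∈ N)
    (hc : ∀ x, eps x = 1 → x * (l.map fun s => (s.1 : G) * (s.2 : G)⁻¹).prod =
      (l.map fun s => (s.1 : G) * (s.2 : G)⁻¹).prod * x) :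
    (orderOf (l.map fun s => (s.1 : G) * (s.2 : G)⁻¹).prod).Coprime (Nat.card C) := by
  have := Fintype.ofFinite D
  have := Fintype.ofFinite E
  set lam := (l.map fun s => (s.1 : G) * (s.2 : G)⁻¹).prod with hlam
  refine Nat.coprime_of_dvd ?_
  intro q hq hq1 hq2
  have hqN : q ∣ Nat.card N := hq2.trans (Subgroup.card_dvd_of_le h.CN)
  have hqk : ¬ q ∣ k := fun h1 => hq.one_lt.ne' (Nat.eq_one_of_dvd_coprimes h.cop hqN h1)
  have hk0 : 0 < k := by
    rw [← h.idx]; exact Nat.pos_of_ne_zero N.index_ne_zero_of_finite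
  have hq4 : 4 < q := by
    have h1 := (h.big q (Nat.mem_primeFactors.2 ⟨hq, hqN, Nat.card_pos.ne'⟩)).1
    omega
  -- the element of order `q`
  set μ := lam ^ (orderOf lam / q) with hμdef
  have hμ : orderOf μ = q := orderOf_pow_orderOf_div (orderOf_pos lam).ne' hq1
  have hμN : μ ∈ N := N.pow_mem hN _
  have hμC : μ ∈ C := by
    have : Fact q.Prime := ⟨hq⟩
    obtain ⟨c, hc'⟩ := exists_prime_orderOf_dvd_card' (G := C) q hq2
    have hco : orderOf (c : G) = q := by rw [Subgroup.orderOf_coe, hc']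
    have h1 : μ ∈ Subgroup.zpowers (c : G) := by
      refine mem_zpowers_of_pow N h.Nc (h.CN c.2) hμN ?_
      rw [hco, ← hμ, pow_orderOf_eq_one]
    exact (Subgroup.zpowers_le.2 c.2) h1
  have hμc : ∀ x, eps x = 1 → x * μ = μ * x := by
    intro x hx
    have h1 : Commute x lam := hc x hx
    exact h1.pow_right _
  have hμ1 : μ ≠ 1 := by
    intro h1
    rw [h1, orderOf_one] at hμ
    exact hq.one_lt.ne hμ
  have hsq : ¬ q ^ 2 ∣ Nat.card G := by
    intro h1
    rw [← N.card_mul_index, h.idx] at h1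
    have h2 : (q ^ 2).Coprime k := Nat.Coprime.pow_left 2 ((Nat.Prime.coprime_iff_not_dvd hq).2 hqk)
    have h3 : q ^ 2 ∣ Nat.card N := h2.dvd_of_dvd_mul_right h1
    rw [pow_two] at h3
    exact hq.one_lt.ne' (Nat.isUnit_iff.1 (h.Nsq q h3))
  -- there is a label
  have hne : l ≠ [] := by
    intro h1
    apply hμ1
    have h2 : lam = 1 := by rw [hlam, h1]; rfl
    rw [hμdef, h2, one_pow]
  obtain ⟨s₀, hs₀⟩ := List.exists_mem_of_ne_nil l hne
  have hd₀ := hDe s₀.1 s₀.1.2
  set g₀ : G := (s₀.1 : G) with hg₀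
  -- the action on `μ`
  have hact : ∀ g, g * μ * g⁻¹ = μ ∨ eps g = -1 := by
    intro g
    rcases Int.units_eq_one_or (eps g) with h1 | h1
    · left
      rw [hμc g h1, mul_inv_cancel_right]
    · exact Or.inr h1
  have hall : ∀ g, eps g = -1 → g * μ * g⁻¹ = g₀ * μ * g₀⁻¹ := by
    intro g hg
    have h1 : eps (g₀⁻¹ * g) = 1 := by rw [map_mul, map_inv, hd₀, hg]; decide
    have h2 := hμc _ h1
    have h3 : g = g₀ * (g₀⁻¹ * g) := by rw [mul_inv_cancel_left]
    calc g * μ * g⁻¹ = g₀ * ((g₀⁻¹ * g) * μ) * (g₀ * (g₀⁻¹ * g))⁻¹ := by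
          rw [← mul_assoc, ← h3]
      _ = g₀ * (μ * (g₀⁻¹ * g)) * (g₀ * (g₀⁻¹ * g))⁻¹ := by rw [h2]
      _ = g₀ * μ * g₀⁻¹ := by group
  obtain ⟨i, hi⟩ : ∃ i : ℤ, g₀ * μ * g₀⁻¹ = μ ^ i := by
    have h1 : g₀ * μ * g₀⁻¹ ∈ Subgroup.zpowers μ := by
      refine mem_zpowers_of_pow N h.Nc hμN (h.Nn.conj_mem μ hμN g₀) ?_
      rw [conj_pow, pow_orderOf_eq_one, mul_one, mul_inv_cancel]
    obtain ⟨i, hi⟩ := Subgroup.mem_zpowers_iff.1 h1
    exact ⟨i, hi.symm⟩
  have hii : μ ^ (i * i) = μ := by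
    have h1 : g₀ * (g₀ * μ * g₀⁻¹) * g₀⁻¹ = μ := by
      have h2 : eps (g₀ * g₀) = 1 := by rw [map_mul, hd₀]; decide
      have h3 := hμc _ h2
      have h4 : g₀ * (g₀ * μ * g₀⁻¹) * g₀⁻¹ = (g₀ * g₀ * μ) * (g₀ * g₀)⁻¹ := by group
      rw [h4, h3, mul_inv_cancel_right]
    rw [hi, ← conj_zpow, hi, ← zpow_mul] at h1
    exact h1
  have hdvd : (q : ℤ) ∣ (i - 1) * (i + 1) := by
    have h1 : μ ^ (i * i - 1) = 1 := by rw [zpow_sub_one, hii, mul_inv_cancel]
    have h2 := orderOf_dvd_iff_zpow_eq_one.2 h1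
    rw [hμ] at h2
    have h3 : (i - 1) * (i + 1) = i * i - 1 := by ring
    rw [h3]
    exact h2
  rcases (Nat.prime_iff_prime_int.1 hq).dvd_or_dvd hdvd with h1 | h1
  · -- `μ` is central
    have h2 : g₀ * μ * g₀⁻¹ = μ := by
      rw [hi]
      have h3 : μ ^ (i - 1) = 1 := by
        apply orderOf_dvd_iff_zpow_eq_one.1
        rw [hμ]
        exact h1
      have h4 : μ ^ i = μ ^ (i - 1) * μ := by rw [← zpow_add_one]; congr 1; ring
      rw [h4, h3, one_mul]
    have hcen : ∀ g, μ * g = g * μ := by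
      intro g
      rcases hact g with h3 | h3
      · exact (mul_inv_eq_iff_eq_mul.1 h3).symm
      · have h4 := hall g h3
        rw [h2] at h4
        exact (mul_inv_eq_iff_eq_mul.1 h4).symm
    obtain ⟨K, hK1, hK2, hK3⟩ := exists_compl hq hμ hcen hsq
    have hKn : K.Normal := by
      refine ⟨fun x hx g => ?_⟩
      have h4 : g * x * g⁻¹ = g * x * g⁻¹ * x⁻¹ * x := by rw [inv_mul_cancel_right]
      rw [h4]
      exact K.mul_mem (hK3 g x) hx
    let _ : CommGroup (G ⧸ K) :=
      { (inferInstance : Group (G ⧸ K)) with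
        mul_comm := by
          intro x y
          obtain ⟨x, rfl⟩ := QuotientGroup.mk'_surjective K x
          obtain ⟨y, rfl⟩ := QuotientGroup.mk'_surjective K y
          have h4 := (QuotientGroup.eq_one_iff (N := K) (x * y * x⁻¹ * y⁻¹)).2 (hK3 x y)
          have h5 : QuotientGroup.mk' K x * QuotientGroup.mk' K y * (QuotientGroup.mk' K x)⁻¹ *
              (QuotientGroup.mk' K y)⁻¹ = 1 := h4
          exact mul_inv_eq_iff_eq_mul.1 (mul_inv_eq_one.1 h5) }
    set n : G →* G ⧸ K := QuotientGroup.mk' K with hn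
    have hn1 : ∀ x, x⁻¹ = x → n x = 1 := by
      intro x hx
      have h4 : x ∈ K := by
        apply hK2
        have h5 : x ^ 2 = 1 := by
          rw [pow_two]
          nth_rewrite 1 [← hx]
          rw [inv_mul_cancel]
        have h6 : orderOf x ∣ 2 := orderOf_dvd_of_pow_eq_one h5
        refine Nat.Coprime.coprime_dvd_left h6 ?_
        rw [Nat.coprime_comm]
        refine (Nat.Prime.coprime_iff_not_dvd hq).2 fun h7 => ?_
        have := Nat.le_of_dvd (by norm_num) h7
        omega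
      exact (QuotientGroup.eq_one_iff x).2 h4
    have hlam1 : n lam = 1 := by
      rw [hlam, map_list_prod, List.map_map, Finset.prod_list_map_count]
      have h4 : ∏ m ∈ l.toFinset, (n ∘ fun s : D × E => (s.1 : G) * (s.2 : G)⁻¹) m ^ l.count m =
          ∏ m : D × E, (n ∘ fun s : D × E => (s.1 : G) * (s.2 : G)⁻¹) m ^ M := by
        rw [← Finset.prod_subset (Finset.subset_univ l.toFinset)]
        · exact Finset.prod_congr rfl fun m _ => by rw [hl m]
        · intro m _ hm
          have h5 : l.count m = 0 := List.count_eq_zero.2 fun h6 => hm (List.mem_toFinset.2 h6)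
          rw [hl m] at h5
          rw [h5, pow_zero]
      rw [h4, Finset.prod_pow]
      have h5 : ∏ m : D × E, (n ∘ fun s : D × E => (s.1 : G) * (s.2 : G)⁻¹) m = 1 := by
        have h6 : ∀ m : D × E, (n ∘ fun s : D × E => (s.1 : G) * (s.2 : G)⁻¹) m = n (m.1 : G) * (n (m.2 : G))⁻¹ := by
          intro m
          show n ((m.1 : G) * (m.2 : G)⁻¹) = _
          rw [map_mul, map_inv]
        rw [Finset.prod_congr rfl fun m _ => h6 m, Finset.prod_mul_distrib, Finset.prod_inv_distrib]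
        have h7 : ∏ m : D × E, n (m.1 : G) = 1 := by
          rw [Fintype.prod_prod_type_right]
          exact Finset.prod_eq_one fun _ _ => prod_sym D hD n fun x _ hx => hn1 x hx
        have h8 : ∏ m : D × E, n (m.2 : G) = 1 := by
          rw [Fintype.prod_prod_type]
          exact Finset.prod_eq_one fun _ _ => prod_sym E hE n fun x _ hx => hn1 x hx
        rw [h7, h8, inv_one, mul_one]
      rw [h5, one_pow]
    have h4 : lam ∈ K := (QuotientGroup.eq_one_iff lam).1 hlam1
    have h5 : orderOf lam ∣ Nat.card K := by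
      rw [← Subgroup.orderOf_mk lam h4]
      exact orderOf_dvd_natCard _
    have h6 : q ∣ 1 := by
      rw [← hK1]
      exact Nat.dvd_gcd (hq1.trans h5) dvd_rfl
    exact hq.one_lt.ne' (Nat.dvd_one.1 h6)
  · -- `μ` has the action `eps`
    apply hμ1
    refine h.nact μ hμC fun g => ?_
    rcases Int.units_eq_one_or (eps g) with h2 | h2
    · rw [h2, Units.val_one, zpow_one, hμc g h2, mul_inv_cancel_right]
    · rw [hall g h2, h2, hi]
      have h3 : μ ^ (i + 1) = 1 := by
        apply orderOf_dvd_iff_zpow_eq_one.1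
        rw [hμ]
        exact h1
      have h4 : μ ^ i = μ ^ (i + 1) * μ⁻¹ := by rw [zpow_add_one, mul_inv_cancel_right]
      rw [h4, h3, one_mul, Units.val_neg, Units.val_one, zpow_neg_one]

end Pool.Agent.Lib.MP_688fd0_co.SQ7.H41
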