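import Mathlib

/-!
SQ7, row ARCS (helper41): passive families are queues.

Tokens `Tok`, visits `k < n` in the order of the levels, slot `e k` of the visit `k` (before the visit: its arrival, after the
visit: its exit). The passive visit `k` of the family `f` in the lap `w` acts on the columns `cs f w` of the family and on its
slot as a queue: the first column goes to the slot, every other column one place forward, the slot to the last column.
`P k` = product of the passive visits before `k`, `O` = tops to bottoms of the next lap, exits to arrivals, `Θ = O * P n`.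
-/

set_option autoImplicit false

namespace Pool.Agent.Lib.MP_688fd0_co.SQ7.H41

open Equiv

variable {Tok F : Type*}

/-- Product of the first `k` permutations. -/
def Pk (E : ℕ → Perm Tok) : ℕ → Perm Tok
  | 0 => 1
  | k + 1 => E k * Pk E k

/-- The passive families as queues. -/
structure Que (n l : ℕ) (E : ℕ → Perm Tok) (e : ℕ → Tok) (O : Perm Tok) (fam : ℕ → Option (F × ℕ))
    (cs : F → ℕ → List Tok) (nxt : ℕ → ℕ) : Prop where
  inj : ∀ i < n, ∀ j < n, e i = e j → i = j
  lap : ∀ k < n, ∀ f w, fam k = some (f, w) → w < l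
  act : ∀ k < n, fam k = none → E k = 1
  run : ∀ k < n, ∀ f w, fam k = some (f, w) → (cs f w ++ [e k]).map (E k) = e k :: cs f w
  off : ∀ k < n, ∀ f w, fam k = some (f, w) → ∀ x, x ∉ cs f w → x ≠ e k → E k x = x
  ne : ∀ k < n, ∀ f, ∀ w < l, e k ∉ cs f w
  disj : ∀ f f', ∀ w < l, ∀ w' < l, ∀ x, x ∈ cs f w → x ∈ cs f' w' → f = f' ∧ w = w'
  up : ∀ f w, w + 1 < l → (cs f w).map O = cs f (w + 1)
  onx : ∀ k < n, nxt k < n ∧ O (e k) = e (nxt k)

namespace Que

variable {n l : ℕ} {E : ℕ → Perm Tok} {e : ℕ → Tok} {O : Perm Tok} {fam : ℕ → Option (F × ℕ)}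
  {cs : F → ℕ → List Tok} {nxt : ℕ → ℕ} (Q : Que n l E e O fam cs nxt)

open Classical in
/-- The visits of the family `f` in the lap `w` before `k`. -/
noncomputable def vs (fam : ℕ → Option (F × ℕ)) (f : F) (w k : ℕ) : List ℕ :=
  (List.range k).filter fun i => fam i = some (f, w)

theorem mem_vs {f : F} {w k i : ℕ} : i ∈ vs fam f w k ↔ i < k ∧ fam i = some (f, w) := by
  classical
  unfold vs
  rw [List.mem_filter, List.mem_range]
  simp

theorem vs_succ_in {f : F} {w k : ℕ} (h : fam k = some (f, w)) : vs fam f w (k + 1) = vs fam f w k ++ [k] := by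
  classical
  unfold vs
  rw [List.range_succ, List.filter_append]
  congr 1
  simp [h]

theorem vs_succ_out {f : F} {w k : ℕ} (h : fam k ≠ some (f, w)) : vs fam f w (k + 1) = vs fam f w k := by
  classical
  unfold vs
  rw [List.range_succ, List.filter_append]
  simp [h]

include Q

/-- A passive visit of another family does not touch the columns; a visit does not touch other slots. -/
theorem E_cs {k : ℕ} (hk : k < n) {f : F} {w : ℕ} (hw : w < l) (h : fam k ≠ some (f, w)) {x : Tok} (hx : x ∈ cs f w) :
    E k x = x := by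
  rcases h' : fam k with _ | ⟨f', w'⟩
  · rw [Q.act k hk h']; rfl
  · refine Q.off k hk f' w' h' x (fun hx' => ?_) (fun hx' => Q.ne k hk f w hw (hx' ▸ hx))
    obtain ⟨h1, h2⟩ := Q.disj f f' w hw w' (Q.lap k hk f' w' h') x hx hx'
    exact h (by rw [h', h1, h2])

theorem E_slot {k j : ℕ} (hk : k < n) (hj : j < n) (hne : j ≠ k) : E k (e j) = e j := by
  rcases h' : fam k with _ | ⟨f', w'⟩
  · rw [Q.act k hk h']; rfl
  · exact Q.off k hk f' w' h' _ (Q.ne j hj f' w' (Q.lap k hk f' w' h')) fun h => hne (Q.inj j hj k hk h)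

theorem E_slot_act {k : ℕ} (hk : k < n) (h : fam k = none) : E k (e k) = e k := by
  rw [Q.act k hk h]; rfl

/-- The slot is untouched before the visit. -/
theorem P_slot {k j : ℕ} (hkj : k ≤ j) (hj : j < n) : Pk E k (e j) = e j := by
  induction k with
  | zero => rfl
  | succ k ih =>
    show E k (Pk E k (e j)) = e j
    rw [ih (by omega), Q.E_slot (by omega) hj (by omega)]

theorem P_act {k j : ℕ} (hk : k ≤ n) (hj : j < n) (h : fam j = none) : Pk E k (e j) = e j := by
  induction k with
  | zero => rfl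
  | succ k ih =>
    show E k (Pk E k (e j)) = e j
    rw [ih (by omega)]
    by_cases h' : j = k
    · subst h'; exact Q.E_slot_act hj h
    · exact Q.E_slot (by omega) hj h'

/-- A token which is in no family and no slot of a passive visit does not move. -/
theorem P_off {k : ℕ} (hk : k ≤ n) {x : Tok} (h : ∀ f, ∀ w < l, x ∉ cs f w) (h' : ∀ j < n, x = e j → fam j = none) :
    Pk E k x = x := by
  induction k with
  | zero => rfl
  | succ k ih =>
    show E k (Pk E k x) = x
    rw [ih (by omega)]
    rcases hf : fam k with _ | ⟨f', w'⟩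
    · rw [Q.act k (by omega) hf]; rfl
    · refine Q.off k (by omega) f' w' hf x (h f' w' (Q.lap k (by omega) f' w' hf)) fun hx => ?_
      rw [h' k (by omega) hx] at hf
      exact Option.some_ne_none _ hf.symm

/-- **FIFO.** -/
theorem fifo (f : F) {w : ℕ} (hw : w < l) {k : ℕ} (hk : k ≤ n) :
    (cs f w ++ (vs fam f w k).map e).map (Pk E k) = (vs fam f w k).map e ++ cs f w := by
  induction k with
  | zero =>
    have h0 : vs fam f w 0 = [] := by unfold vs; simp
    rw [h0]
    simp only [List.map_nil, List.append_nil, List.nil_append]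
    show List.map (fun x => x) (cs f w) = _
    exact List.map_id' _
  | succ k ih =>
    have ih := ih (by omega)
    have hcomp : ∀ xs : List Tok, xs.map (Pk E (k + 1)) = (xs.map (Pk E k)).map (E k) := by
      intro xs; rw [List.map_map]; rfl
    by_cases h : fam k = some (f, w)
    · have h0 : cs f w ++ (vs fam f w k ++ [k]).map e = (cs f w ++ (vs fam f w k).map e) ++ [e k] := by simp
      rw [vs_succ_in h, h0, hcomp, List.map_append, ih, List.map_append, List.map_append, List.map_append,
        List.map_cons, List.map_nil, List.map_cons, List.map_nil, Q.P_slot le_rfl (by omega), List.map_cons, List.map_nil]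
      have h1 := Q.run k (by omega) f w h
      have h2 : ((vs fam f w k).map e).map (E k) = (vs fam f w k).map e := by
        rw [List.map_map]
        refine List.map_congr_left fun i hi => ?_
        obtain ⟨hi, _⟩ := mem_vs.1 hi
        exact Q.E_slot (by omega) (by omega) (by omega)
      rw [List.map_append, List.map_cons, List.map_nil] at h1
      rw [h2, List.append_assoc, h1]
      simp
    · rw [vs_succ_out h, hcomp, ih, List.map_append]
      have h2 : ((vs fam f w k).map e).map (E k) = (vs fam f w k).map e := by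
        rw [List.map_map]
        refine List.map_congr_left fun i hi => ?_
        obtain ⟨hi, _⟩ := mem_vs.1 hi
        exact Q.E_slot (by omega) (by omega) (by omega)
      have h3 : (cs f w).map (E k) = cs f w := by
        conv_rhs => rw [← List.map_id' (cs f w)]
        exact List.map_congr_left fun x hx => Q.E_cs (by omega) hw h hx
      rw [h2, h3]

omit Q

/-- `x` flows to the position `z` through inactive tokens. -/
def Fl (n : ℕ) (E : ℕ → Perm Tok) (O : Perm Tok) (Act : Set Tok) (x z : Tok) : Prop :=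
  ∃ j, (∀ i, 0 < i → i ≤ j → ((O * Pk E n) ^ i) x ∉ Act) ∧ Pk E n (((O * Pk E n) ^ j) x) = z

theorem Fl.step {Act : Set Tok} {x z z' : Tok} (h : Fl n E O Act x z) (h1 : O z ∉ Act) (h2 : Fl n E O Act (O z) z') :
    Fl n E O Act x z' := by
  obtain ⟨j, h3, h4⟩ := h
  obtain ⟨j', h5, h6⟩ := h2
  have e1 : ((O * Pk E n) ^ (j + 1)) x = O z := by
    rw [pow_succ', Perm.mul_apply, Perm.mul_apply, h4]
  refine ⟨j' + (j + 1), fun i hi hij => ?_, ?_⟩
  · rcases lt_trichotomy i (j + 1) with h | h | h
    · exact h3 i hi (by omega)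
    · rw [h, e1]; exact h1
    · obtain ⟨d, rfl⟩ : ∃ d, i = d + (j + 1) := ⟨i - (j + 1), by omega⟩
      rw [pow_add, Perm.mul_apply, e1]
      exact h5 d (by omega) (by omega)
  · rw [pow_add, Perm.mul_apply, e1, h6]

theorem Fl.one {Act : Set Tok} {x : Tok} : Fl n E O Act x (Pk E n x) :=
  ⟨0, fun i hi hi0 => by omega, rfl⟩

/-- The visits of the family `f` in the laps before `w`. -/
noncomputable def VS (fam : ℕ → Option (F × ℕ)) (n : ℕ) (f : F) : ℕ → List ℕ
  | 0 => []
  | w + 1 => VS fam n f w ++ vs fam f w n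

theorem mem_VS {f : F} {w i : ℕ} : i ∈ VS fam n f w ↔ i < n ∧ ∃ v < w, fam i = some (f, v) := by
  induction w with
  | zero => simp [VS]
  | succ w ih =>
    rw [VS, List.mem_append, ih, mem_vs]
    constructor
    · rintro (⟨h1, v, h2, h3⟩ | ⟨h1, h2⟩)
      · exact ⟨h1, v, by omega, h3⟩
      · exact ⟨h1, w, by omega, h2⟩
    · rintro ⟨h1, v, h2, h3⟩
      rcases Nat.lt_or_ge v w with h | h
      · exact Or.inl ⟨h1, v, h, h3⟩
      · have : v = w := by omega
        subst this
        exact Or.inr ⟨h1, h3⟩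

theorem VS_nodup (f : F) (w : ℕ) : (VS fam n f w).Nodup := by
  classical
  induction w with
  | zero => exact List.nodup_nil
  | succ w ih =>
    rw [VS, List.nodup_append']
    refine ⟨ih, List.Nodup.filter _ List.nodup_range, fun i h1 h2 => ?_⟩
    obtain ⟨-, v, hv, h3⟩ := mem_VS.1 h1
    obtain ⟨-, h4⟩ := mem_vs.1 h2
    rw [h3] at h4
    have := (Prod.mk.inj (Option.some.inj h4)).2
    omega

include Q

theorem map_P (f : F) {w : ℕ} (hw : w < l) {Act : Set Tok} :
    List.Forall₂ (Fl n E O Act) (cs f w ++ (vs fam f w n).map e) ((vs fam f w n).map e ++ cs f w) := by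
  rw [← Q.fifo f hw le_rfl, List.forall₂_map_right_iff]
  exact List.forall₂_same.2 fun x _ => Fl.one

/-- **The flow of a family through all laps.** -/
theorem flow (f : F) {w : ℕ} (hw : w < l) {Act : Set Tok} (hA : ∀ v < l, ∀ x ∈ cs f v, x ∉ Act) :
    List.Forall₂ (Fl n E O Act) (cs f 0 ++ (VS fam n f (w + 1)).map e) ((VS fam n f (w + 1)).map e ++ cs f w) := by
  induction w with
  | zero =>
    have := Q.map_P f hw (Act := Act)
    simpa [VS] using this
  | succ w ih =>
    have ih := ih (by omega)
    have h1 := Q.map_P f hw (Act := Act)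
    rw [VS, List.map_append]
    -- split the flow of the laps `≤ w`
    have hlen : (cs f w).length = (cs f (w + 1)).length := by rw [← Q.up f w hw, List.length_map]
    -- inputs of the first part
    obtain ⟨a, b, hab, ha, hb⟩ : ∃ a b, cs f 0 ++ (VS fam n f (w + 1)).map e = a ++ b ∧
        List.Forall₂ (Fl n E O Act) a ((VS fam n f (w + 1)).map e) ∧ List.Forall₂ (Fl n E O Act) b (cs f w) := by
      refine ⟨_, _, (List.take_append_drop ((VS fam n f (w + 1)).map e).length _).symm, ?_, ?_⟩
      · have := List.forall₂_take ((VS fam n f (w + 1)).map e).length ih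
        rwa [List.take_left] at this
      · have := List.forall₂_drop ((VS fam n f (w + 1)).map e).length ih
        rwa [List.drop_left] at this
    have hout : (VS fam n f (w + 1)).map e ++ (vs fam f (w + 1) n).map e ++ cs f (w + 1) =
        (VS fam n f (w + 1)).map e ++ ((vs fam f (w + 1) n).map e ++ cs f (w + 1)) := List.append_assoc _ _ _
    rw [← List.append_assoc, hab, hout, List.append_assoc]
    refine List.rel_append (R := Fl n E O Act) ha ?_
    -- the tops of the lap `w` are the bottoms of the lap `w + 1`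
    have hbl : b.length = (cs f (w + 1)).length := by rw [hb.length_eq, hlen]
    obtain ⟨c, d, hcd, hc, hd⟩ : ∃ c d, (vs fam f (w + 1) n).map e ++ cs f (w + 1) = c ++ d ∧
        List.Forall₂ (Fl n E O Act) (cs f (w + 1)) c ∧ List.Forall₂ (Fl n E O Act) ((vs fam f (w + 1) n).map e) d := by
      refine ⟨_, _, (List.take_append_drop (cs f (w + 1)).length _).symm, ?_, ?_⟩
      · have := List.forall₂_take (cs f (w + 1)).length h1
        rwa [List.take_left] at this
      · have := List.forall₂_drop (cs f (w + 1)).length h1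
        rwa [List.drop_left] at this
    rw [hcd]
    refine List.rel_append (R := Fl n E O Act) ?_ hd
    rw [← Q.up f w hw, List.forall₂_map_left_iff] at hc
    -- compose
    have key : ∀ (b u c : List Tok), List.Forall₂ (Fl n E O Act) b u → (∀ x ∈ u, O x ∉ Act) →
        List.Forall₂ (fun x y => Fl n E O Act (O x) y) u c → List.Forall₂ (Fl n E O Act) b c := by
      intro b u c hbu
      induction hbu generalizing c with
      | nil => intro _ h; cases h; exact List.Forall₂.nil
      | cons h _ ih' =>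
        intro hu huc
        cases huc with
        | cons h3 h4 =>
          exact List.Forall₂.cons (h.step (hu _ (List.mem_cons_self ..)) h3)
            (ih' _ (fun x hx => hu x (List.mem_cons_of_mem _ hx)) h4)
    refine key b _ c hb (fun x hx => ?_) hc
    refine hA (w + 1) hw _ ?_
    rw [← Q.up f w hw]
    exact List.mem_map_of_mem hx

/-- **The arcs of a family**: the arrival of the visit number `i` flows to the exit of the visit number `i + q`. -/
theorem flow_get (f : F) (hl : 0 < l) {Act : Set Tok} (hA : ∀ v < l, ∀ x ∈ cs f v, x ∉ Act) {i : ℕ}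
    (hi : i + (cs f 0).length < (VS fam n f l).length) :
    Fl n E O Act (e ((VS fam n f l)[i]'(by omega))) (e ((VS fam n f l)[i + (cs f 0).length])) := by
  obtain ⟨w, rfl⟩ : ∃ w, l = w + 1 := ⟨l - 1, by omega⟩
  have h1 := Q.flow f (Nat.lt_succ_self w) hA
  have h2 := h1.get (i := i + (cs f 0).length) (by simp; omega) (by simp; omega)
  have e1 : (cs f 0 ++ (VS fam n f (w + 1)).map e).get ⟨i + (cs f 0).length, by simp; omega⟩ =
      e ((VS fam n f (w + 1))[i]'(by omega)) := by
    rw [List.get_eq_getElem]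
    simp only
    rw [List.getElem_append_right (by omega), List.getElem_map]
    congr 2
    omega
  have e2 : ((VS fam n f (w + 1)).map e ++ cs f w).get ⟨i + (cs f 0).length, by simp; omega⟩ =
      e ((VS fam n f (w + 1))[i + (cs f 0).length]) := by
    rw [List.get_eq_getElem]
    simp only
    rw [List.getElem_append_left (by simp; omega), List.getElem_map]
  rw [e1, e2] at h2
  exact h2

/-- The bottoms of the first lap flow to the exits of the first visits. -/
theorem flow_bot (f : F) (hl : 0 < l) {Act : Set Tok} (hA : ∀ v < l, ∀ x ∈ cs f v, x ∉ Act)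
    (hb : (cs f 0).length ≤ (VS fam n f l).length) {x : Tok} (hx : x ∈ cs f 0) : ∃ z < n, Fl n E O Act x (e z) := by
  obtain ⟨w, rfl⟩ : ∃ w, l = w + 1 := ⟨l - 1, by omega⟩
  obtain ⟨i, hi, rfl⟩ := List.getElem_of_mem hx
  have h1 := Q.flow f (Nat.lt_succ_self w) hA
  have h2 := h1.get (i := i) (by simp; omega) (by simp; omega)
  have e1 : (cs f 0 ++ (VS fam n f (w + 1)).map e).get ⟨i, by simp; omega⟩ = (cs f 0)[i] := by
    rw [List.get_eq_getElem]
    simp only
    rw [List.getElem_append_left hi]
  have e2 : ((VS fam n f (w + 1)).map e ++ cs f w).get ⟨i, by simp; omega⟩ =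
      e ((VS fam n f (w + 1))[i]'(by omega)) := by
    rw [List.get_eq_getElem]
    simp only
    rw [List.getElem_append_left (by simp; omega), List.getElem_map]
  rw [e1, e2] at h2
  exact ⟨_, (mem_VS.1 (List.getElem_mem _)).1, h2⟩

/-- **Coverage** (H3). -/
theorem cover [Finite Tok] (hl : 0 < l) {Act : Set Tok} (hA : ∀ k < n, fam k = none → e k ∈ Act)
    (hcs : ∀ f, ∀ v < l, ∀ x ∈ cs f v, x ∉ Act)
    (prev : ∀ k < n, fam k ≠ none → ∃ k' < n, fam k' = none ∧ O (e k') = e k)
    (big : ∀ f, (cs f 0).length ≤ (VS fam n f l).length)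
    (cov : ∀ x, ∃ i : ℕ, (O ^ i) x ∈ Act ∨ (∃ k < n, (O ^ i) x = e k) ∨ ∃ f, ∃ w < l, (O ^ i) x ∈ cs f w) (x : Tok) :
    ∃ i : ℕ, ((O * Pk E n) ^ i) x ∈ Act := by
  by_contra hno
  push Not at hno
  set Θ := O * Pk E n with hΘ
  have hnext : ∀ y, (∃ i : ℕ, (Θ ^ i) x = y) → ∃ i : ℕ, (Θ ^ i) x = Θ y := by
    rintro y ⟨i, rfl⟩
    exact ⟨i + 1, by rw [pow_succ', Perm.mul_apply]⟩
  have hprev : ∀ y, (∃ i : ℕ, (Θ ^ i) x = Θ y) → ∃ i : ℕ, (Θ ^ i) x = y := by
    rintro y ⟨i, hi⟩
    obtain ⟨m, hm⟩ : ∃ m, orderOf Θ = m + 1 := ⟨orderOf Θ - 1, by have := orderOf_pos Θ; omega⟩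
    refine ⟨m + i, ?_⟩
    rw [pow_add, Perm.mul_apply, hi, ← Perm.mul_apply, ← pow_succ, ← hm, pow_orderOf_eq_one]
    rfl
  have hslot : ∀ k < n, ¬ ∃ i : ℕ, (Θ ^ i) x = e k := by
    rintro k hk hex
    by_cases h : fam k = none
    · obtain ⟨i, hi⟩ := hex
      exact hno i (by rw [hi]; exact hA k hk h)
    · obtain ⟨k', hk', h1, h2⟩ := prev k hk h
      have h3 : Θ (e k') = e k := by
        rw [hΘ, Perm.mul_apply, Q.P_act le_rfl hk' h1, h2]
      rw [← h3] at hex
      obtain ⟨i, hi⟩ := hprev _ hex
      exact hno i (by rw [hi]; exact hA k' hk' h1)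
  have hcol : ∀ f w, w < l → ∀ y ∈ cs f w, ¬ ∃ i : ℕ, (Θ ^ i) x = y := by
    intro f w
    induction w with
    | zero =>
      rintro _ y hy ⟨i, hi⟩
      obtain ⟨z, hz, j, -, h2⟩ := Q.flow_bot f hl (hcs f) (big f) hy
      obtain ⟨h3, h4⟩ := Q.onx z hz
      refine hslot _ h3 ⟨j + 1 + i, ?_⟩
      rw [pow_add, Perm.mul_apply, hi, pow_succ', Perm.mul_apply, ← h4, ← h2]
      rfl
    | succ w ih =>
      intro hw y hy hex
      rw [← Q.up f w hw] at hy
      obtain ⟨y', hy', rfl⟩ := List.mem_map.1 hy
      have h1 := Q.fifo f (by omega : w < l) le_rfl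
      have h2 : y' ∈ (cs f w ++ (vs fam f w n).map e).map (Pk E n) := by
        rw [h1]; exact List.mem_append_right _ hy'
      obtain ⟨u, hu, rfl⟩ := List.mem_map.1 h2
      have h3 : ∃ i : ℕ, (Θ ^ i) x = u := hprev _ hex
      rcases List.mem_append.1 hu with h4 | h4
      · exact ih (by omega) u h4 h3
      · obtain ⟨k, hk, rfl⟩ := List.mem_map.1 h4
        exact hslot k (mem_vs.1 hk).1 h3
  have hfix : ∀ i : ℕ, (Θ ^ i) x = (O ^ i) x := by
    intro i
    induction i with
    | zero => rfl
    | succ i ih =>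
      have h1 : Pk E n ((Θ ^ i) x) = (Θ ^ i) x := by
        refine Q.P_off le_rfl (fun f w hw h => hcol f w hw _ h ⟨i, rfl⟩) fun j hj h => ?_
        exact absurd ⟨i, h⟩ (hslot j hj)
      calc (Θ ^ (i + 1)) x = O (Pk E n ((Θ ^ i) x)) := by rw [pow_succ', Perm.mul_apply]; rfl
        _ = O ((Θ ^ i) x) := by rw [h1]
        _ = (O ^ (i + 1)) x := by rw [ih, pow_succ', Perm.mul_apply]
  obtain ⟨i, h | ⟨k, hk, h⟩ | ⟨f, w, hw, h⟩⟩ := cov x
  · rw [← hfix] at h; exact hno i h
  · rw [← hfix] at h; exact hslot k hk ⟨i, h⟩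
  · rw [← hfix] at h; exact hcol f w hw _ h ⟨i, rfl⟩

end Que

end Pool.Agent.Lib.MP_688fd0_co.SQ7.H41
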